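import Mathlib

/-!
# Relative colouring numbers: basic facts

For a graph `H` on `V`, a natural number `k` and sets `A ⊆ B` of vertices we say that `B` is
`k`-free over `A` (`Fr H k A B`) if the vertices of `B \ A` can be well-ordered so that each of
them has at most `k` neighbours in `B` which are in `A` or come earlier. Orders are represented by
ordinal valued functions, ties are counted on both sides.
-/

set_option autoImplicit false

namespace Pool.Agent.Helper316_Col

open Set Cardinal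

universe u w

variable {V : Type u}

/-- The neighbours of `v` in `B` which lie in `A` or are not later than `v`. -/
def bk (H : SimpleGraph V) (A B : Set V) (ρ : V → Ordinal.{u}) (v : V) : Set V :=
  {x | x ∈ B ∧ H.Adj v x ∧ (x ∈ A ∨ ρ x ≤ ρ v)}

/-- `ρ` witnesses that `B` is `k`-free over `A`. -/
def Wit (H : SimpleGraph V) (k : ℕ) (A B : Set V) (ρ : V → Ordinal.{u}) : Prop :=
  ∀ v ∈ B, v ∉ A → (bk H A B ρ v).encard ≤ (k : ℕ∞)

/-- `B` is `k`-free over `A`. -/
def Fr (H : SimpleGraph V) (k : ℕ) (A B : Set V) : Prop := ∃ ρ, Wit H k A B ρ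

/-- All edges of `K` are inside `B` and not inside `A`. -/
def Supp (K : SimpleGraph V) (A B : Set V) : Prop :=
  ∀ v x, K.Adj v x → v ∈ B ∧ x ∈ B ∧ (v ∉ A ∨ x ∉ A)

/-- `H` has a subgraph for which `B` over `A` needs exactly `k + 1`. -/
def Good (H : SimpleGraph V) (k : ℕ) (A B : Set V) : Prop :=
  ∃ K ≤ H, Supp K A B ∧ Fr K (k + 1) A B ∧ ¬ Fr K k A B

theorem Wit.mono {H H' : SimpleGraph V} {k k' : ℕ} {A B B' : Set V} {ρ : V → Ordinal.{u}}
    (h : Wit H k A B ρ) (hH : H' ≤ H) (hk : k ≤ k') (hB : B' ⊆ B) : Wit H' k' A B' ρ := by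
  intro v hv hvA
  refine le_trans (encard_le_encard ?_) (le_trans (h v (hB hv) hvA) (by exact_mod_cast hk))
  rintro x ⟨hx, ha, hr⟩
  exact ⟨hB hx, hH ha, hr⟩

theorem Fr.mono {H H' : SimpleGraph V} {k k' : ℕ} {A B B' : Set V}
    (h : Fr H k A B) (hH : H' ≤ H) (hk : k ≤ k') (hB : B' ⊆ B) : Fr H' k' A B' := by
  obtain ⟨ρ, h⟩ := h
  exact ⟨ρ, h.mono hH hk hB⟩

theorem Fr.refl (H : SimpleGraph V) (k : ℕ) (A : Set V) : Fr H k A A :=
  ⟨fun _ => 0, fun _ hv hvA => absurd hv hvA⟩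

theorem Wit.closed {H : SimpleGraph V} {k : ℕ} {A A' B : Set V} {ρ : V → Ordinal.{u}}
    (h : Wit H k A B ρ) (hA : A ⊆ A') (hcl : ∀ v ∈ A', v ∉ A → bk H A B ρ v ⊆ A') :
    Wit H k A' B ρ := by
  intro v hv hvA
  refine le_trans (encard_le_encard ?_) (h v hv (fun h => hvA (hA h)))
  rintro x ⟨hx, ha, hr⟩
  refine ⟨hx, ha, ?_⟩
  by_cases hxA : x ∈ A
  · exact Or.inl hxA
  · by_cases hxr : ρ x ≤ ρ v
    · exact Or.inr hxr
    · exfalso
      rcases hr with hr | hr
      · exact hvA (hcl x hr hxA ⟨hv, ha.symm, Or.inr (le_of_lt (not_le.mp hxr))⟩)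
      · exact hxr hr

theorem exists_bound (f : V → Ordinal.{u}) : ∃ Ω : Ordinal.{u}, ∀ v, f v < Ω := by
  refine ⟨⨆ v, Order.succ (f v), fun v => ?_⟩
  exact lt_of_lt_of_le (Order.lt_succ (f v)) (Ordinal.le_iSup (fun v => Order.succ (f v)) v)

/-- Concatenation along a well-ordered chain. -/
theorem concat {ι : Type w} [LinearOrder ι] [WellFoundedLT ι] (r : ι → Ordinal.{u})
    (hr : StrictMono r) {H : SimpleGraph V} {k : ℕ} {A : Set V} (L U : ι → Set V)
    (hA : ∀ i, A ⊆ L i) (hLU : ∀ i, L i ⊆ U i) (h1 : ∀ i j, i < j → U i ⊆ L j)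
    (h3 : ∀ i, ∀ v ∈ L i, v ∈ A ∨ ∃ j < i, v ∈ U j) (hF : ∀ i, Fr H k (L i) (U i)) :
    Fr H k A (A ∪ ⋃ i, U i) := by
  classical
  rcases isEmpty_or_nonempty ι with hι | hι
  · simp only [iUnion_of_empty, union_empty]
    exact Fr.refl H k A
  choose ρ hρ using hF
  have hs : ∀ v, ∃ i : ι, (∃ j, v ∈ U j) → (v ∈ U i ∧ ∀ j < i, v ∉ U j) := by
    intro v
    by_cases hv : ∃ j, v ∈ U j
    · have hne : ({j | v ∈ U j} : Set ι).Nonempty := hv
      refine ⟨WellFounded.min (wellFounded_lt (α := ι)) _ hne, fun _ => ⟨?_, ?_⟩⟩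
      · exact WellFounded.min_mem (wellFounded_lt (α := ι)) _ hne
      · intro j hj hvj
        exact WellFounded.not_lt_min (wellFounded_lt (α := ι)) _ hvj hj
    · exact ⟨Classical.choice hι, fun h => absurd h hv⟩
  choose s hs using hs
  obtain ⟨Ω, hΩ⟩ := exists_bound (fun v => ρ (s v) v)
  refine ⟨fun v => Ω * r (s v) + ρ (s v) v, ?_⟩
  have key : ∀ x v, Ω * r (s x) + ρ (s x) x ≤ Ω * r (s v) + ρ (s v) v → s x ≤ s v := by
    intro x v h
    by_contra hlt
    rw [not_le] at hlt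
    have h2 : Ω * r (s v) + ρ (s v) v < Ω * r (s x) := by
      calc Ω * r (s v) + ρ (s v) v < Ω * r (s v) + Ω := by
            exact (add_lt_add_iff_left _).mpr (hΩ v)
        _ = Ω * (r (s v) + 1) := by rw [mul_add, mul_one]
        _ ≤ Ω * r (s x) := by
            refine mul_le_mul_right (α := Ordinal) ?_ Ω
            exact Order.add_one_le_of_lt (hr hlt)
    have h3 : Ω * r (s x) ≤ Ω * r (s x) + ρ (s x) x := le_self_add
    exact absurd h (not_le.mpr (lt_of_lt_of_le h2 h3))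
  intro v hv hvA
  have hvU : ∃ j, v ∈ U j := by
    rcases hv with hv | hv
    · exact absurd hv hvA
    · simpa using hv
  obtain ⟨hvs, hvmin⟩ := hs v hvU
  have hvL : v ∉ L (s v) := by
    intro h
    rcases h3 _ v h with h | ⟨j, hj, hvj⟩
    · exact hvA h
    · exact hvmin j hj hvj
  refine le_trans (encard_le_encard ?_) (hρ (s v) v hvs hvL)
  rintro x ⟨hx, ha, hr'⟩
  by_cases hxA : x ∈ A
  · exact ⟨hLU _ (hA _ hxA), ha, Or.inl (hA _ hxA)⟩
  · have hxU : ∃ j, x ∈ U j := by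
      rcases hx with hx | hx
      · exact absurd hx hxA
      · simpa using hx
    obtain ⟨hxs, _⟩ := hs x hxU
    have hle := hr'.resolve_left hxA
    rcases lt_or_eq_of_le (key x v hle) with hlt | heq
    · have : x ∈ L (s v) := h1 _ _ hlt hxs
      exact ⟨hLU _ this, ha, Or.inl this⟩
    · simp only [heq] at hle hxs
      exact ⟨hxs, ha, Or.inr (by simpa using hle)⟩

/-- End extension of witnesses. -/
theorem Wit.extend {H : SimpleGraph V} {k : ℕ} {A B C : Set V} {ρ : V → Ordinal.{u}}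
    (hAB : A ⊆ B) (h : Wit H k A B ρ) (h' : Fr H k B C) :
    ∃ ρ', Wit H k A C ρ' ∧ (∀ v ∈ B, ρ' v = ρ v) ∧ ∀ v ∈ B, ∀ x, x ∉ B → ρ' v < ρ' x := by
  classical
  obtain ⟨σ, hσ⟩ := h'
  obtain ⟨Ω, hΩ⟩ := exists_bound ρ
  have e1 : ∀ v ∈ B, (if v ∈ B then ρ v else Ω + σ v) = ρ v := fun v hv => if_pos hv
  have e2 : ∀ v, v ∉ B → (if v ∈ B then ρ v else Ω + σ v) = Ω + σ v := fun v hv => if_neg hv
  have e3 : ∀ v ∈ B, ∀ x, x ∉ B → (if v ∈ B then ρ v else Ω + σ v) <
      (if x ∈ B then ρ x else Ω + σ x) := by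
    intro v hv x hx
    rw [e1 v hv, e2 x hx]
    exact lt_of_lt_of_le (hΩ v) le_self_add
  refine ⟨fun v => if v ∈ B then ρ v else Ω + σ v, ?_, e1, e3⟩
  intro v hv hvA
  by_cases hvB : v ∈ B
  · refine le_trans (encard_le_encard ?_) (h v hvB hvA)
    rintro x ⟨hx, ha, hr⟩
    by_cases hxB : x ∈ B
    · refine ⟨hxB, ha, ?_⟩
      rcases hr with hr | hr
      · exact Or.inl hr
      · refine Or.inr ?_
        have hr2 := hr
        simp only [hxB, hvB, if_true] at hr2
        exact hr2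
    · exfalso
      rcases hr with hr | hr
      · exact hxB (hAB hr)
      · exact absurd hr (not_le.mpr (e3 v hvB x hxB))
  · refine le_trans (encard_le_encard ?_) (hσ v hv hvB)
    rintro x ⟨hx, ha, hr⟩
    refine ⟨hx, ha, ?_⟩
    by_cases hxB : x ∈ B
    · exact Or.inl hxB
    · rcases hr with hr | hr
      · exact Or.inl (hAB hr)
      · refine Or.inr ?_
        have hr2 := hr
        simp only [hxB, hvB, if_false] at hr2
        exact (add_le_add_iff_left _).mp hr2

theorem Fr.trans {H : SimpleGraph V} {k : ℕ} {A B C : Set V}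
    (hAB : A ⊆ B) (h : Fr H k A B) (h' : Fr H k B C) : Fr H k A C := by
  obtain ⟨ρ, h⟩ := h
  obtain ⟨ρ', h1, -, -⟩ := h.extend hAB h'
  exact ⟨ρ', h1⟩

/-- Witnesses can be taken injective. -/
theorem Fr.inj {H : SimpleGraph V} {k : ℕ} {A B : Set V} (h : Fr H k A B) :
    ∃ ρ, Wit H k A B ρ ∧ Function.Injective ρ := by
  classical
  obtain ⟨ρ, h⟩ := h
  have hwo : IsWellOrder V (WellOrderingRel (α := V)) := WellOrderingRel.isWellOrder
  let τ : V → Ordinal.{u} := fun v => Ordinal.typein (WellOrderingRel (α := V)) v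
  have hτ : Function.Injective τ := Ordinal.typein_injective _
  obtain ⟨Ω, hΩ⟩ := exists_bound τ
  have key : ∀ x v, Ω * ρ x + τ x ≤ Ω * ρ v + τ v → ρ x ≤ ρ v := by
    intro x v h
    by_contra hlt
    rw [not_le] at hlt
    have h2 : Ω * ρ v + τ v < Ω * ρ x := by
      calc Ω * ρ v + τ v < Ω * ρ v + Ω := (add_lt_add_iff_left _).mpr (hΩ v)
        _ = Ω * (ρ v + 1) := by rw [mul_add, mul_one]
        _ ≤ Ω * ρ x := by
            refine mul_le_mul_right (α := Ordinal) ?_ Ω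
            exact Order.add_one_le_of_lt hlt
    exact absurd h (not_le.mpr (lt_of_lt_of_le h2 le_self_add))
  refine ⟨fun v => Ω * ρ v + τ v, ?_, ?_⟩
  · intro v hv hvA
    refine le_trans (encard_le_encard ?_) (h v hv hvA)
    rintro x ⟨hx, ha, hr⟩
    exact ⟨hx, ha, hr.imp id (key x v)⟩
  · intro x v hxv
    have hxv' : Ω * ρ x + τ x = Ω * ρ v + τ v := hxv
    have e : ρ x = ρ v := le_antisymm (key _ _ hxv'.le) (key _ _ hxv'.ge)
    rw [e] at hxv'
    exact hτ (by simpa using hxv')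

/-- Peeling a finite set. -/
theorem fr_of_peel {H : SimpleGraph V} {k : ℕ} (A : Set V) (D : Finset V)
    (h : ∀ D' ⊆ D, D'.Nonempty → ∃ v ∈ D', {x | H.Adj v x ∧ (x ∈ A ∨ x ∈ D')}.encard ≤ (k : ℕ∞)) :
    Fr H k A (A ∪ (D : Set V)) := by
  classical
  induction D using Finset.strongInduction with
  | H D ih =>
    rcases D.eq_empty_or_nonempty with rfl | hne
    · simp only [Finset.coe_empty, union_empty]
      exact Fr.refl H k A
    · obtain ⟨v, hv, hvk⟩ := h D (Finset.Subset.refl D) hne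
      have h1 : Fr H k A (A ∪ ((D.erase v : Finset V) : Set V)) := by
        refine ih _ (Finset.erase_ssubset hv) ?_
        intro D' hD' hne'
        exact h D' (hD'.trans (Finset.erase_subset _ _)) hne'
      refine Fr.trans subset_union_left h1 ⟨fun _ => 0, ?_⟩
      intro x hx hxA
      have hxv : x = v := by
        by_contra hne2
        apply hxA
        rcases hx with hx | hx
        · exact Or.inl hx
        · exact Or.inr (by simpa [hne2] using hx)
      subst hxv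
      refine le_trans (encard_le_encard ?_) hvk
      rintro y ⟨hy, ha, -⟩
      exact ⟨ha, by simpa using hy⟩

theorem Fr.of_supp {K : SimpleGraph V} {j : ℕ} {A B C : Set V}
    (hK : Supp K A C) (h : Fr K j A C) : Fr K j A B := by
  obtain ⟨ρ, h⟩ := h
  refine ⟨ρ, ?_⟩
  intro v hv hvA
  by_cases hvC : v ∈ C
  · refine le_trans (encard_le_encard ?_) (h v hvC hvA)
    rintro x ⟨hx, ha, hr⟩
    exact ⟨(hK v x ha).2.1, ha, hr⟩
  · have : bk K A B ρ v = ∅ := by
      ext x
      simp only [mem_empty_iff_false, iff_false]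
      rintro ⟨hx, ha, hr⟩
      exact hvC (hK v x ha).1
    rw [this]
    simp

theorem Good.mono {H : SimpleGraph V} {k : ℕ} {A B C : Set V} (hCB : C ⊆ B)
    (h : Good H k A C) : Good H k A B := by
  obtain ⟨K, hK, hs, h1, h2⟩ := h
  refine ⟨K, hK, ?_, h1.of_supp hs, fun h3 => h2 (h3.mono le_rfl le_rfl hCB)⟩
  intro v x hvx
  obtain ⟨a, b, c⟩ := hs v x hvx
  exact ⟨hCB a, hCB b, c⟩

end Pool.Agent.Helper316_Col
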