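import Pool.Agent.Helper316_Col.Count

/-!
# Chains indexed by well-orders, closing off, and the regular case
-/

set_option autoImplicit false

namespace Pool.Agent.Helper316_Col

open Set Cardinal

universe u w

variable {V : Type u}

/-- A continuous increasing chain of sets, indexed by a well-order. -/
noncomputable def chain {T : Type w} [LinearOrder T] [WellFoundedLT T] (A : Set V)
    (g : T → Set V → Set V) : T → Set V :=
  WellFounded.fix (wellFounded_lt (α := T)) (fun _ F => A ∪ ⋃ b, ⋃ h : b < _, g b (F b h))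

theorem mem_chain {T : Type w} [LinearOrder T] [WellFoundedLT T] (A : Set V)
    (g : T → Set V → Set V) (a : T) (v : V) :
    v ∈ chain A g a ↔ v ∈ A ∨ ∃ b < a, v ∈ g b (chain A g b) := by
  rw [chain, WellFounded.fix_eq]
  simp only [mem_union, mem_iUnion, exists_prop]

theorem subset_chain {T : Type w} [LinearOrder T] [WellFoundedLT T] (A : Set V)
    (g : T → Set V → Set V) (a : T) : A ⊆ chain A g a :=
  fun v hv => (mem_chain A g a v).mpr (Or.inl hv)

theorem g_subset_chain {T : Type w} [LinearOrder T] [WellFoundedLT T] (A : Set V)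
    (g : T → Set V → Set V) {a b : T} (h : b < a) : g b (chain A g b) ⊆ chain A g a :=
  fun v hv => (mem_chain A g a v).mpr (Or.inr ⟨b, h, hv⟩)

theorem chain_mono {T : Type w} [LinearOrder T] [WellFoundedLT T] (A : Set V)
    (g : T → Set V → Set V) {a b : T} (h : b ≤ a) : chain A g b ⊆ chain A g a := by
  intro v hv
  rw [mem_chain] at hv ⊢
  rcases hv with hv | ⟨c, hc, hv⟩
  · exact Or.inl hv
  · exact Or.inr ⟨c, lt_of_lt_of_le hc h, hv⟩

theorem chain_subset {T : Type w} [LinearOrder T] [WellFoundedLT T] {A B : Set V}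
    {g : T → Set V → Set V} (hAB : A ⊆ B) (hg : ∀ a Y, Y ⊆ B → g a Y ⊆ B) (a : T) :
    chain A g a ⊆ B := by
  induction a using WellFoundedLT.induction with
  | ind a ih =>
    intro v hv
    rw [mem_chain] at hv
    rcases hv with hv | ⟨b, hb, hv⟩
    · exact hAB hv
    · exact hg b _ (ih b hb) hv

theorem mk_biUnion_lt {ι : Type u} {θ : Cardinal.{u}} (hθ : θ.IsRegular) {S : Set ι}
    (hS : #S < θ) (f : ι → Set V) (hf : ∀ i ∈ S, #(f i) < θ) : #(⋃ i ∈ S, f i : Set V) < θ := by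
  rw [biUnion_eq_iUnion]
  refine lt_of_le_of_lt (mk_iUnion_le_sum_mk) ?_
  exact sum_lt_of_isRegular hθ hS (fun i => hf i.1 i.2)

theorem chain_card {T : Type u} [LinearOrder T] [WellFoundedLT T] {θ : Cardinal.{u}}
    (hθ : θ.IsRegular) (hT : ∀ a : T, #(Iio a) < θ) {A A0 : Set V}
    {g : T → Set V → Set V} {P : Set V → Prop} (hA : #(A \ A0 : Set V) < θ)
    (hP : ∀ a, P (chain A g a))
    (hg : ∀ a Y, P Y → #(Y \ A0 : Set V) < θ → #(g a Y \ A0 : Set V) < θ) (a : T) :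
    #(chain A g a \ A0 : Set V) < θ := by
  induction a using WellFoundedLT.induction with
  | ind a ih =>
    have h1 : (chain A g a \ A0 : Set V) ⊆
        (A \ A0) ∪ ⋃ b ∈ Iio a, (g b (chain A g b) \ A0) := by
      rintro v ⟨hv, hv0⟩
      rw [mem_chain] at hv
      rcases hv with hv | ⟨b, hb, hv⟩
      · exact Or.inl ⟨hv, hv0⟩
      · refine Or.inr ?_
        simp only [mem_iUnion]
        exact ⟨b, hb, hv, hv0⟩
    refine lt_of_le_of_lt (mk_le_mk_of_subset h1) ?_
    refine lt_of_le_of_lt (mk_union_le _ _) ?_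
    refine add_lt_of_lt hθ.aleph0_le hA ?_
    exact mk_biUnion_lt hθ (hT a) _ (fun b hb => hg b _ (hP b) (ih b hb))

/-- Sets of size less than `θ` are bounded in `θ`. -/
theorem exists_gt_of_card_lt {θ : Cardinal.{u}} (hθ : θ.IsRegular) (S : Set θ.ord.ToType)
    (hS : #S < θ) : ∃ b, ∀ s ∈ S, s < b := by
  by_contra hcon
  push Not at hcon
  have h1 : IsCofinal S := by
    intro b
    obtain ⟨s, hs, hbs⟩ := hcon b
    exact ⟨s, hs, hbs⟩
  have h2 := Order.cof_le h1
  rw [Ordinal.cof_toType, hθ.cof_ord] at h2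
  exact absurd hS (not_lt.mpr h2)

theorem exists_gt' {θ : Cardinal.{u}} (hθ : θ.IsRegular) (a : θ.ord.ToType) : ∃ b, a < b := by
  obtain ⟨b, hb⟩ := exists_gt_of_card_lt hθ {a} (by
    rw [mk_singleton]
    exact lt_of_lt_of_le one_lt_aleph0 hθ.aleph0_le)
  exact ⟨b, hb a rfl⟩

/-- Closing off. -/
theorem close_off {θ : Cardinal.{u}} (hθ : θ.IsRegular) (hω : ℵ₀ < θ) {A A1 : Set V}
    (Y U : θ.ord.ToType → Set V) (hA1 : ∀ a, A1 ⊆ Y a) (hYU : ∀ a b, a < b → U a ⊆ Y b)
    (hlim : ∀ a, ∀ v ∈ Y a, v ∈ A1 ∨ ∃ b < a, v ∈ U b)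
    (hcard : ∀ a, #(Y a \ A : Set V) < θ)
    (N : V → Set V) (hNfin : ∀ a, ∀ v ∈ Y a, v ∉ A → (N v).Finite)
    (hN : ∀ a, ∀ v ∈ Y a, v ∉ A → N v ⊆ A1 ∪ ⋃ a, U a) (a0 : θ.ord.ToType) :
    ∃ a, a0 ≤ a ∧ ∀ v ∈ Y a, v ∉ A → N v ⊆ Y a := by
  classical
  have hstep : ∀ a, ∃ b, a < b ∧ ∀ v ∈ Y a, v ∉ A → N v ⊆ Y b := by
    intro a
    have hst : ∀ x : V, ∃ c : θ.ord.ToType, (∃ c, x ∈ U c) → x ∈ U c := by
      intro x
      by_cases hx : ∃ c, x ∈ U c
      · obtain ⟨c, hc⟩ := hx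
        exact ⟨c, fun _ => hc⟩
      · exact ⟨a, fun h => absurd h hx⟩
    choose st hst using hst
    let S : Set θ.ord.ToType := {a} ∪ st '' (⋃ v ∈ (Y a \ A : Set V), N v)
    have hS : #S < θ := by
      refine lt_of_le_of_lt (mk_union_le _ _) ?_
      refine add_lt_of_lt hθ.aleph0_le ?_ ?_
      · rw [mk_singleton]
        exact lt_of_lt_of_le one_lt_aleph0 hθ.aleph0_le
      · refine lt_of_le_of_lt mk_image_le ?_
        refine mk_biUnion_lt hθ (hcard a) _ ?_
        intro v hv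
        have := (hNfin a v hv.1 hv.2).countable
        exact lt_of_le_of_lt (le_aleph0_iff_set_countable.mpr this) hω
    obtain ⟨b, hb⟩ := exists_gt_of_card_lt hθ S hS
    refine ⟨b, hb a (Or.inl rfl), ?_⟩
    intro v hv hvA x hx
    rcases hN a v hv hvA hx with h | h
    · exact hA1 b h
    · have hx' : ∃ c, x ∈ U c := by simpa using h
      have h1 : st x < b := hb _ (Or.inr ⟨x, by
        simp only [mem_iUnion]
        exact ⟨v, ⟨hv, hvA⟩, hx⟩, rfl⟩)
      exact hYU _ _ h1 (hst x hx')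
  choose nx hnx1 hnx2 using hstep
  let s : ℕ → θ.ord.ToType := fun n => Nat.rec a0 (fun _ a => nx a) n
  have hs : ∀ n, s (n + 1) = nx (s n) := fun n => rfl
  have hlt : ∀ n, s n < s (n + 1) := fun n => by rw [hs]; exact hnx1 _
  have hne : {x | ∀ n, s n < x}.Nonempty := by
    obtain ⟨b, hb⟩ := exists_gt_of_card_lt hθ (range s) (lt_of_le_of_lt
      (le_aleph0_iff_set_countable.mpr (countable_range s)) hω)
    exact ⟨b, fun n => hb _ (mem_range_self n)⟩
  obtain ⟨a, ha, hmin⟩ : ∃ a, (∀ n, s n < a) ∧ ∀ b < a, ∃ n, b ≤ s n := by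
    refine ⟨WellFounded.min (wellFounded_lt (α := θ.ord.ToType)) _ hne,
      WellFounded.min_mem (wellFounded_lt (α := θ.ord.ToType)) _ hne, ?_⟩
    intro b hb
    by_contra hcon
    push Not at hcon
    exact WellFounded.not_lt_min (wellFounded_lt (α := θ.ord.ToType)) {x | ∀ n, s n < x} hcon hb
  refine ⟨a, (ha 0).le, ?_⟩
  intro v hv hvA
  have hex : ∃ n, v ∈ Y (s n) := by
    rcases hlim a v hv with h | ⟨b, hb, h⟩
    · exact ⟨0, hA1 _ h⟩
    · obtain ⟨n, hn⟩ := hmin b hb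
      exact ⟨n + 1, hYU _ _ (lt_of_le_of_lt hn (hlt n)) h⟩
  obtain ⟨n, hn⟩ := hex
  have h1 := hnx2 (s n) v hn hvA
  rw [← hs] at h1
  refine h1.trans ?_
  intro x hx
  rcases hlim _ x hx with h | ⟨b, hb, h⟩
  · exact hA1 _ h
  · exact hYU _ _ (hb.trans (ha (n + 1))) h

/-- A transfinite version of transitivity. -/
theorem fr_of_family {H : SimpleGraph V} {k : ℕ} {A B : Set V} (𝒢 : Set (Set V))
    (hA : A ∈ 𝒢)
    (hU : ∀ c ⊆ 𝒢, c.Nonempty → IsChain (· ⊆ ·) c → ⋃₀ c ∈ 𝒢)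
    (hstep : ∀ Y ∈ 𝒢, Y ≠ B → ∃ Y' ∈ 𝒢, Y ⊂ Y' ∧ Fr H k Y Y') : Fr H k A B := by
  classical
  have hg : ∀ Y, ∃ Y', (Y ∈ 𝒢 → Y ≠ B → (Y' ∈ 𝒢 ∧ Y ⊂ Y' ∧ Fr H k Y Y')) ∧
      (¬ (Y ∈ 𝒢 ∧ Y ≠ B) → Y' = Y) := by
    intro Y
    by_cases h : Y ∈ 𝒢 ∧ Y ≠ B
    · obtain ⟨Y', h1, h2, h3⟩ := hstep Y h.1 h.2
      exact ⟨Y', fun _ _ => ⟨h1, h2, h3⟩, fun h' => absurd h h'⟩
    · exact ⟨Y, fun h1 h2 => absurd ⟨h1, h2⟩ h, fun _ => rfl⟩
  choose g hg1 hg2 using hg
  have hgmem : ∀ Y ∈ 𝒢, g Y ∈ 𝒢 := by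
    intro Y hY
    by_cases h : Y = B
    · rw [hg2 Y (fun h' => h'.2 h)]
      exact hY
    · exact (hg1 Y hY h).1
  have hgsub : ∀ Y, Y ⊆ g Y := by
    intro Y
    by_cases h : Y ∈ 𝒢 ∧ Y ≠ B
    · exact (hg1 Y h.1 h.2).2.1.1
    · rw [hg2 Y h]
  let C : Ordinal.{u} → Set V := chain A (fun _ Y => g Y)
  have hCmem : ∀ o, C o ∈ 𝒢 := by
    intro o
    induction o using WellFoundedLT.induction with
    | ind o ih =>
      rcases eq_or_ne o 0 with rfl | ho
      · have : C 0 = A := by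
          ext v
          rw [mem_chain]
          constructor
          · rintro (h | ⟨b, hb, -⟩)
            · exact h
            · exact absurd hb (not_lt.mpr (zero_le))
          · exact Or.inl
        rw [this]
        exact hA
      · have hpos : 0 < o := pos_iff_ne_zero.mpr ho
        have h1 : C o = ⋃₀ {Z | ∃ b < o, Z = g (C b)} := by
          ext v
          rw [mem_chain]
          simp only [mem_sUnion, mem_setOf_eq]
          constructor
          · rintro (h | ⟨b, hb, h⟩)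
            · exact ⟨g (C 0), ⟨0, hpos, rfl⟩, hgsub _ (subset_chain _ _ _ h)⟩
            · exact ⟨g (C b), ⟨b, hb, rfl⟩, h⟩
          · rintro ⟨Z, ⟨b, hb, rfl⟩, h⟩
            exact Or.inr ⟨b, hb, h⟩
        rw [h1]
        refine hU _ ?_ ⟨_, 0, hpos, rfl⟩ ?_
        · rintro Z ⟨b, hb, rfl⟩
          exact hgmem _ (ih b hb)
        · rintro Z ⟨b, hb, rfl⟩ Z' ⟨b', hb', rfl⟩ hne
          have hlt : ∀ x y : Ordinal.{u}, x < y → g (C x) ⊆ g (C y) := fun x y hxy =>
            (g_subset_chain A (fun _ Y => g Y) hxy).trans (hgsub _)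
          rcases lt_trichotomy b b' with h | h | h
          · exact Or.inl (hlt _ _ h)
          · subst h
            exact absurd rfl hne
          · exact Or.inr (hlt _ _ h)
  have hex : ∃ o, C o = B := by
    by_contra hcon
    push Not at hcon
    have hstrict : ∀ x y : Ordinal.{u}, x < y → C x ⊂ C y := by
      intro x y hxy
      exact lt_of_lt_of_le (hg1 (C x) (hCmem x) (hcon x)).2.1
        (g_subset_chain A (fun _ Y => g Y) hxy)
    have hinj : Function.Injective C := by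
      intro x y hxy
      rcases lt_trichotomy x y with h | h | h
      · exact absurd hxy (hstrict _ _ h).ne
      · exact h
      · exact absurd hxy.symm (hstrict _ _ h).ne
    exact not_injective_of_ordinal C hinj
  obtain ⟨o, ho⟩ := hex
  have key : Fr H k A (A ∪ ⋃ o : Ordinal.{u}, g (C o)) := by
    refine concat (ι := Ordinal.{u}) id strictMono_id C (fun o => g (C o)) ?_ ?_ ?_ ?_ ?_
    · intro o
      exact subset_chain _ _ _
    · intro o
      exact hgsub _
    · intro i j hij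
      exact g_subset_chain A (fun _ Y => g Y) hij
    · intro i v hv
      exact (mem_chain _ _ _ _).mp hv
    · intro o
      by_cases h : C o = B
      · rw [hg2 (C o) (fun h' => h'.2 h)]
        exact Fr.refl H k _
      · exact (hg1 (C o) (hCmem o) h).2.2
  refine key.mono le_rfl le_rfl ?_
  intro v hv
  refine Or.inr (mem_iUnion.mpr ⟨o, hgsub _ ?_⟩)
  rw [ho]
  exact hv

end Pool.Agent.Helper316_Col
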