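import Pool.Agent.Helper316_Col.Basic

/-!
# The finite and the countable case
-/

set_option autoImplicit false

namespace Pool.Agent.Helper316_Col

open Set Cardinal

universe u w

variable {V : Type u}

/-- The degrees in a finite set can be lowered to `k + 1` one edge at a time. -/
theorem fin_step {H : SimpleGraph V} {k : ℕ} (A : Set V) (D : Finset V) (hDA : ∀ v ∈ D, v ∉ A)
    (h : ∀ v ∈ D, (k : ℕ∞) < {x | H.Adj v x ∧ (x ∈ A ∨ x ∈ D)}.encard) :
    ∃ K ≤ H, (∀ v x, K.Adj v x → (v ∈ D ∨ x ∈ D) ∧ (v ∈ A ∨ v ∈ D) ∧ (x ∈ A ∨ x ∈ D)) ∧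
      Fr K (k + 1) A (A ∪ (D : Set V)) ∧ ∀ v ∈ D, (k : ℕ∞) < {x | K.Adj v x}.encard := by
  classical
  have hN : ∀ v, ∃ N : Finset V, v ∈ D → (∀ x ∈ N, H.Adj v x ∧ (x ∈ A ∨ x ∈ D)) ∧
      (k : ℕ∞) < (N : Set V).encard := by
    intro v
    by_cases hv : v ∈ D
    · have h1 : ((k + 1 : ℕ) : ℕ∞) ≤ {x | H.Adj v x ∧ (x ∈ A ∨ x ∈ D)}.encard := by
        push_cast
        exact Order.add_one_le_of_lt (h v hv)
      obtain ⟨t, ht, hte⟩ := exists_subset_encard_eq h1
      have hfin : t.Finite := by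
        refine finite_of_encard_eq_coe hte
      refine ⟨hfin.toFinset, fun _ => ⟨?_, ?_⟩⟩
      · intro x hx
        exact ht (by simpa using hx)
      · rw [Finite.coe_toFinset, hte]
        exact_mod_cast Nat.lt_succ_self k
    · exact ⟨∅, fun h => absurd h hv⟩
  choose N hN using hN
  let E0 : Finset (Sym2 V) := D.biUnion (fun v => (N v).image (fun x => s(v, x)))
  let P : Finset (Sym2 V) → Prop := fun E => ∀ v ∈ D, (k : ℕ∞) < {x | s(v, x) ∈ E}.encard
  have hP0 : P E0 := by
    intro v hv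
    refine lt_of_lt_of_le (hN v hv).2 (encard_le_encard ?_)
    intro x hx
    simp only [mem_setOf_eq, E0, Finset.mem_biUnion, Finset.mem_image]
    exact ⟨v, hv, x, by simpa using hx, rfl⟩
  have hne : (E0.powerset.filter P).Nonempty :=
    ⟨E0, Finset.mem_filter.mpr ⟨Finset.mem_powerset_self _, hP0⟩⟩
  obtain ⟨E, hE, hmin⟩ := Finset.exists_min_image (E0.powerset.filter P) Finset.card hne
  rw [Finset.mem_filter, Finset.mem_powerset] at hE
  obtain ⟨hEE, hPE⟩ := hE
  have hE0 : ∀ v x, s(v, x) ∈ E → H.Adj v x ∧ (v ∈ D ∨ x ∈ D) ∧ (v ∈ A ∨ v ∈ D) ∧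
      (x ∈ A ∨ x ∈ D) := by
    intro v x hvx
    have h1 := hEE hvx
    simp only [E0, Finset.mem_biUnion, Finset.mem_image] at h1
    obtain ⟨a, ha, b, hb, hab⟩ := h1
    have h2 := (hN a ha).1 b hb
    rw [Sym2.eq_iff] at hab
    rcases hab with ⟨rfl, rfl⟩ | ⟨rfl, rfl⟩
    · exact ⟨h2.1, Or.inl ha, Or.inr ha, h2.2⟩
    · exact ⟨h2.1.symm, Or.inr ha, h2.2, Or.inr ha⟩
  let K : SimpleGraph V := SimpleGraph.fromEdgeSet (E : Set (Sym2 V))
  have hK : ∀ v x, K.Adj v x ↔ s(v, x) ∈ E := by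
    intro v x
    simp only [K, SimpleGraph.fromEdgeSet_adj, Finset.mem_coe]
    refine ⟨fun h => h.1, fun h => ⟨h, (hE0 v x h).1.ne⟩⟩
  refine ⟨K, ?_, ?_, ?_, ?_⟩
  · intro v x hvx
    exact (hE0 v x ((hK v x).mp hvx)).1
  · intro v x hvx
    exact (hE0 v x ((hK v x).mp hvx)).2
  · refine fr_of_peel A D ?_
    intro D' hD' hne'
    by_contra hcon
    push Not at hcon
    obtain ⟨v, hv⟩ := hne'
    have hvd := hcon v hv
    have hnonempty : {x | K.Adj v x ∧ (x ∈ A ∨ x ∈ D')}.Nonempty := by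
      rw [nonempty_iff_ne_empty]
      intro he
      rw [he] at hvd
      simp at hvd
    obtain ⟨x, hvx, hx⟩ := hnonempty
    have hmem : s(v, x) ∈ E := (hK v x).mp hvx
    have hlt : (E.erase s(v, x)).card < E.card := Finset.card_erase_lt_of_mem hmem
    have hdeg : ∀ z ∈ D', ∀ y, (k : ℕ∞) < ({t | s(z, t) ∈ E} \ {y}).encard := by
      intro z hz y
      have h1 : ((k + 1 : ℕ) : ℕ∞) < {t | s(z, t) ∈ E}.encard := by
        refine lt_of_lt_of_le (hcon z hz) (encard_le_encard ?_)
        rintro t ⟨ht, -⟩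
        exact (hK z t).mp ht
      have h2 : {t | s(z, t) ∈ E}.encard ≤ ({t | s(z, t) ∈ E} \ {y}).encard + 1 := by
        have := encard_le_encard_diff_add_encard {t | s(z, t) ∈ E} {y}
        simpa using this
      have h3 : (k : ℕ∞) + 1 < ({t | s(z, t) ∈ E} \ {y}).encard + 1 := by
        refine lt_of_lt_of_le ?_ h2
        exact_mod_cast h1
      exact lt_of_add_lt_add_right h3
    have hPE' : P (E.erase s(v, x)) := by
      intro z hz
      by_cases hzv : z = v
      · refine lt_of_lt_of_le (hdeg v hv x) (encard_le_encard ?_)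
        rintro t ⟨ht, htx⟩
        subst hzv
        simp only [mem_setOf_eq, Finset.mem_erase]
        refine ⟨?_, ht⟩
        intro he
        rw [Sym2.eq_iff] at he
        rcases he with ⟨-, h2⟩ | ⟨h1, h2⟩
        · exact htx h2
        · exact hvx.ne h1
      · by_cases hzx : z = x
        · have hxD' : x ∈ D' := by
            rcases hx with hx | hx
            · exact absurd hx (hDA x (hzx ▸ hz))
            · exact hx
          subst hzx
          refine lt_of_lt_of_le (hdeg z hxD' v) (encard_le_encard ?_)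
          rintro t ⟨ht, htv⟩
          simp only [mem_setOf_eq, Finset.mem_erase]
          refine ⟨?_, ht⟩
          intro he
          rw [Sym2.eq_iff] at he
          rcases he with ⟨h1, -⟩ | ⟨h1, h2⟩
          · exact hzv h1
          · exact htv h2
        · refine lt_of_lt_of_le (hPE z hz) (encard_le_encard ?_)
          intro t ht
          simp only [mem_setOf_eq, Finset.mem_erase]
          refine ⟨?_, ht⟩
          intro he
          rw [Sym2.eq_iff] at he
          rcases he with ⟨h1, -⟩ | ⟨h1, -⟩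
          · exact hzv h1
          · exact hzx h1
    have := hmin (E.erase s(v, x)) (by
      rw [Finset.mem_filter, Finset.mem_powerset]
      exact ⟨(Finset.erase_subset _ _).trans hEE, hPE'⟩)
    omega
  · intro v hv
    have := hPE v hv
    refine lt_of_lt_of_le this (encard_le_encard ?_)
    intro x hx
    exact (hK v x).mpr hx

theorem natMono : StrictMono (fun n : ℕ => (n : Ordinal.{u})) := fun _ _ h =>
  Nat.cast_lt.mpr h

/-- A finite obstruction. -/
theorem good_of_finite {H : SimpleGraph V} {k : ℕ} (A : Set V) (D : Finset V)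
    (hne : D.Nonempty) (hDA : ∀ v ∈ D, v ∉ A)
    (h : ∀ v ∈ D, (k : ℕ∞) < {x | H.Adj v x ∧ (x ∈ A ∨ x ∈ D)}.encard) :
    Good H k A (A ∪ (D : Set V)) := by
  classical
  obtain ⟨K, hKH, hKs, hKF, hKd⟩ := fin_step A D hDA h
  refine ⟨K, hKH, ?_, hKF, ?_⟩
  · intro v x hvx
    obtain ⟨a, b, c⟩ := hKs v x hvx
    exact ⟨b, c, a.imp (fun h => hDA v h) (fun h => hDA x h)⟩
  · rintro ⟨ρ, hρ⟩
    obtain ⟨v, hv, hmax⟩ := Finset.exists_max_image D ρ hne
    have h1 := hρ v (Or.inr hv) (hDA v hv)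
    refine absurd h1 (not_le.mpr (lt_of_lt_of_le (hKd v hv) (encard_le_encard ?_)))
    intro x hx
    obtain ⟨a, b, c⟩ := hKs v x hx
    exact ⟨c, hx, c.imp id (hmax x)⟩

/-- Finite closures. -/
theorem exists_finite_closure {K : SimpleGraph V} {k : ℕ} {A B : Set V} {ρ : V → Ordinal.{u}}
    (hρ : Wit K k A B ρ) (hinj : Function.Injective ρ) (v : V) (hv : v ∈ B) (hvA : v ∉ A) :
    ∃ F : Set V, F.Finite ∧ v ∈ F ∧ (∀ x ∈ F, x ∈ B ∧ x ∉ A) ∧
      ∀ x ∈ F, bk K A B ρ x ⊆ A ∪ F := by
  classical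
  suffices H : ∀ o : Ordinal.{u}, ∀ v, ρ v = o → v ∈ B → v ∉ A →
      ∃ F : Set V, F.Finite ∧ v ∈ F ∧ (∀ x ∈ F, x ∈ B ∧ x ∉ A) ∧
      ∀ x ∈ F, bk K A B ρ x ⊆ A ∪ F from H _ v rfl hv hvA
  intro o
  induction o using WellFoundedLT.induction with
  | ind o ih =>
    rintro v rfl hv hvA
    have hfin : (bk K A B ρ v).Finite := by
      refine finite_of_encard_le_coe (hρ v hv hvA)
    have h1 : ∀ x, ∃ F : Set V, x ∈ bk K A B ρ v → x ∉ A → (F.Finite ∧ x ∈ F ∧
        (∀ y ∈ F, y ∈ B ∧ y ∉ A) ∧ ∀ y ∈ F, bk K A B ρ y ⊆ A ∪ F) := by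
      intro x
      by_cases hx : x ∈ bk K A B ρ v ∧ x ∉ A
      · obtain ⟨⟨hxB, ha, hr⟩, hxA⟩ := hx
        have hlt : ρ x < ρ v := by
          refine lt_of_le_of_ne (hr.resolve_left hxA) ?_
          intro he
          exact ha.ne (hinj he).symm
        obtain ⟨F, hF⟩ := ih (ρ x) hlt x rfl hxB hxA
        exact ⟨F, fun _ _ => hF⟩
      · exact ⟨∅, fun h1 h2 => absurd ⟨h1, h2⟩ hx⟩
    choose F hF using h1
    refine ⟨{v} ∪ ⋃ x ∈ bk K A B ρ v \ A, F x, ?_, Or.inl rfl, ?_, ?_⟩
    · refine (finite_singleton v).union (Finite.biUnion (hfin.subset diff_subset) ?_)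
      intro x hx
      exact (hF x hx.1 hx.2).1
    · intro y hy
      rcases hy with hy | hy
      · rw [mem_singleton_iff] at hy
        subst hy
        exact ⟨hv, hvA⟩
      · simp only [mem_iUnion] at hy
        obtain ⟨x, hx, hy⟩ := hy
        exact (hF x hx.1 hx.2).2.2.1 y hy
    · intro y hy
      rcases hy with hy | hy
      · rw [mem_singleton_iff] at hy
        subst hy
        intro x hx
        by_cases hxA : x ∈ A
        · exact Or.inl hxA
        · refine Or.inr (Or.inr ?_)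
          simp only [mem_iUnion]
          exact ⟨x, ⟨hx, hxA⟩, (hF x hx hxA).2.1⟩
      · simp only [mem_iUnion] at hy
        obtain ⟨x, hx, hy⟩ := hy
        intro z hz
        rcases (hF x hx.1 hx.2).2.2.2 y hy hz with h | h
        · exact Or.inl h
        · refine Or.inr (Or.inr ?_)
          simp only [mem_iUnion]
          exact ⟨x, hx, h⟩

/-- An infinite chain of finite obstructions. -/
theorem good_of_chain {H : SimpleGraph V} {k : ℕ} {A B : Set V} (hAB : A ⊆ B)
    (X D : ℕ → Finset V) (hXB : ∀ n, ∀ v ∈ X n, v ∈ B ∧ v ∉ A)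
    (hstep : ∀ n, (X (n + 1) : Set V) = (X n : Set V) ∪ (D n : Set V)) (hne : ∀ n, (D n).Nonempty)
    (hdis : ∀ n, ∀ v ∈ D n, v ∉ X n)
    (hdeg : ∀ n, ∀ v ∈ D n, (k : ℕ∞) <
      {x | H.Adj v x ∧ (x ∈ A ∪ (X n : Set V) ∨ x ∈ D n)}.encard) :
    Good H k A B := by
  classical
  have hDX : ∀ n, ∀ v ∈ D n, v ∈ X (n + 1) := by
    intro n v hv
    have : v ∈ (X (n + 1) : Set V) := by
      rw [hstep]
      exact Or.inr hv
    exact this
  have hmono1 : ∀ n, (X n : Set V) ⊆ X (n + 1) := by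
    intro n
    rw [hstep]
    exact subset_union_left
  have hmono : ∀ m n, m ≤ n → (X m : Set V) ⊆ X n := by
    intro m n h
    induction h with
    | refl => exact Subset.rfl
    | step _ ih => exact ih.trans (hmono1 _)
  have hD : ∀ n, ∃ K ≤ H, (∀ v x, K.Adj v x → (v ∈ D n ∨ x ∈ D n) ∧
      (v ∈ A ∪ (X n : Set V) ∨ v ∈ D n) ∧ (x ∈ A ∪ (X n : Set V) ∨ x ∈ D n)) ∧
      Fr K (k + 1) (A ∪ (X n : Set V)) (A ∪ (X n : Set V) ∪ (D n : Set V)) ∧
      ∀ v ∈ D n, (k : ℕ∞) < {x | K.Adj v x}.encard := by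
    intro n
    refine fin_step (A ∪ (X n : Set V)) (D n) ?_ (hdeg n)
    rintro v hv (h | h)
    · exact (hXB (n + 1) v (hDX n v hv)).2 h
    · exact hdis n v hv h
  choose K hKH hKs hKF hKd using hD
  have hU : ∀ n, A ∪ (X n : Set V) ∪ (D n : Set V) = A ∪ (X (n + 1) : Set V) := by
    intro n
    rw [hstep, union_assoc]
  let G : SimpleGraph V := ⨆ n, K n
  have hG : ∀ v x, G.Adj v x ↔ ∃ n, (K n).Adj v x := by
    intro v x
    simp only [G, SimpleGraph.iSup_adj]
  have hKsupp : ∀ n v x, (K n).Adj v x → v ∈ A ∪ (X (n + 1) : Set V) ∧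
      x ∈ A ∪ (X (n + 1) : Set V) ∧ ((v ∉ A ∧ v ∉ X n) ∨ (x ∉ A ∧ x ∉ X n)) := by
    intro n v x h
    obtain ⟨a, b, c⟩ := hKs n v x h
    refine ⟨?_, ?_, ?_⟩
    · rw [← hU]; exact b
    · rw [← hU]; exact c
    · exact a.imp (fun h => ⟨(hXB (n + 1) v (hDX n v h)).2, hdis n v h⟩)
        (fun h => ⟨(hXB (n + 1) x (hDX n x h)).2, hdis n x h⟩)
  -- locality
  have hloc : ∀ n v x, v ∈ A ∪ (X (n + 1) : Set V) → v ∉ A ∪ (X n : Set V) →
      x ∈ A ∪ (X (n + 1) : Set V) → G.Adj v x → (K n).Adj v x := by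
    intro n v x hv hv' hx h
    obtain ⟨m, hm⟩ := (hG v x).mp h
    obtain ⟨a, b, c⟩ := hKsupp m v x hm
    have hmn : m ≤ n := by
      by_contra hlt
      rw [not_le] at hlt
      have h1 := hmono (n + 1) m hlt
      rcases c with ⟨c1, c2⟩ | ⟨c1, c2⟩
      · exact c2 (h1 (hv.resolve_left c1))
      · exact c2 (h1 (hx.resolve_left c1))
    have hnm : n ≤ m := by
      by_contra hlt
      rw [not_le] at hlt
      have h1 := hmono (m + 1) n hlt
      exact hv' (a.imp id (fun h => h1 h))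
    have : m = n := le_antisymm hmn hnm
    rw [← this]
    exact hm
  have hSupp : Supp G A (A ∪ ⋃ n, (A ∪ (X (n + 1) : Set V))) := by
    intro v x h
    obtain ⟨m, hm⟩ := (hG v x).mp h
    obtain ⟨a, b, c⟩ := hKsupp m v x hm
    refine ⟨Or.inr (mem_iUnion.mpr ⟨m, a⟩), Or.inr (mem_iUnion.mpr ⟨m, b⟩), ?_⟩
    exact c.imp (fun h => h.1) (fun h => h.1)
  have hsub : (A ∪ ⋃ n, (A ∪ (X (n + 1) : Set V))) ⊆ B := by
    refine union_subset hAB (iUnion_subset fun n => union_subset hAB ?_)
    intro v hv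
    exact (hXB _ v hv).1
  refine ⟨G, ?_, ?_, ?_, ?_⟩
  · intro v x h
    obtain ⟨m, hm⟩ := (hG v x).mp h
    exact hKH m hm
  · intro v x h
    obtain ⟨a, b, c⟩ := hSupp v x h
    exact ⟨hsub a, hsub b, c⟩
  · refine Fr.of_supp hSupp ?_
    have h0 : Fr G (k + 1) A (A ∪ (X 0 : Set V)) := by
      refine ⟨fun _ => 0, ?_⟩
      intro v hv hvA
      have : bk G A (A ∪ (X 0 : Set V)) (fun _ => 0) v = ∅ := by
        ext x
        simp only [mem_empty_iff_false, iff_false]
        rintro ⟨hx, ha, -⟩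
        obtain ⟨m, hm⟩ := (hG v x).mp ha
        obtain ⟨a, b, c⟩ := hKsupp m v x hm
        rcases c with ⟨c1, c2⟩ | ⟨c1, c2⟩
        · exact c2 (hmono 0 m (Nat.zero_le _) (hv.resolve_left c1))
        · exact c2 (hmono 0 m (Nat.zero_le _) (hx.resolve_left c1))
      rw [this]
      simp
    have h1 : Fr G (k + 1) (A ∪ (X 0 : Set V)) ((A ∪ (X 0 : Set V)) ∪
        ⋃ n, (A ∪ (X (n + 1) : Set V))) := by
      refine concat (ι := ℕ) (fun n => (n : Ordinal.{u})) natMono
        (fun n => A ∪ (X n : Set V)) (fun n => A ∪ (X (n + 1) : Set V)) ?_ ?_ ?_ ?_ ?_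
      · intro n
        exact union_subset_union_right _ (hmono 0 n (Nat.zero_le _))
      · intro n
        exact union_subset_union_right _ (hmono1 n)
      · intro i j hij
        exact union_subset_union_right _ (hmono _ _ hij)
      · intro i v hv
        rcases Nat.eq_zero_or_pos i with rfl | hi
        · exact Or.inl hv
        · refine Or.inr ⟨i - 1, by omega, ?_⟩
          have : i - 1 + 1 = i := by omega
          rw [this]
          exact hv
      · intro n
        obtain ⟨ρ, hρ⟩ := hKF n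
        rw [hU] at hρ
        refine ⟨ρ, ?_⟩
        intro v hv hvA
        refine le_trans (encard_le_encard ?_) (hρ v hv hvA)
        rintro x ⟨hx, ha, hr⟩
        exact ⟨hx, hloc n v x hv hvA hx ha, hr⟩
    have h2 := Fr.trans subset_union_left h0 h1
    refine h2.mono le_rfl le_rfl ?_
    refine union_subset (subset_union_left.trans subset_union_left) subset_union_right
  · intro hFr
    obtain ⟨ρ, hρ, hinj⟩ := hFr.inj
    -- closure of `X 0`
    have h1 : ∀ v, ∃ F : Set V, v ∈ X 0 → (F.Finite ∧ v ∈ F ∧ (∀ x ∈ F, x ∈ B ∧ x ∉ A) ∧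
      ∀ x ∈ F, bk G A B ρ x ⊆ A ∪ F) := by
      intro v
      by_cases hv : v ∈ X 0
      · obtain ⟨F, hF⟩ := exists_finite_closure hρ hinj v (hXB 0 v hv).1 (hXB 0 v hv).2
        exact ⟨F, fun _ => hF⟩
      · exact ⟨∅, fun h => absurd h hv⟩
    choose F0 hF0 using h1
    let F : Set V := ⋃ v ∈ (X 0 : Set V), F0 v
    have hFfin : F.Finite := Finite.biUnion (X 0).finite_toSet (fun v hv => (hF0 v hv).1)
    have hF0F : (X 0 : Set V) ⊆ F := by
      intro v hv
      simp only [F, mem_iUnion]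
      exact ⟨v, hv, (hF0 v hv).2.1⟩
    have hFcl : ∀ x ∈ F, bk G A B ρ x ⊆ A ∪ F := by
      intro x hx y hy
      simp only [F, mem_iUnion] at hx
      obtain ⟨v, hv, hx⟩ := hx
      rcases (hF0 v hv).2.2.2 x hx hy with h | h
      · exact Or.inl h
      · refine Or.inr ?_
        simp only [F, mem_iUnion]
        exact ⟨v, hv, h⟩
    have hex : ∃ n, ¬ ((X n : Set V) ⊆ F) := by
      by_contra hcon
      push Not at hcon
      have hcard : ∀ n, n ≤ (X n).card := by
        intro n
        induction n with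
        | zero => exact Nat.zero_le _
        | succ n ih =>
          obtain ⟨v, hv⟩ := hne n
          have h1 : X n ⊂ X (n + 1) := by
            rw [Finset.ssubset_iff_subset_ne]
            refine ⟨fun x hx => hmono1 n hx, ?_⟩
            intro he
            have := hDX n v hv
            rw [← he] at this
            exact hdis n v hv this
          have := Finset.card_lt_card h1
          omega
      have h2 : (X (hFfin.toFinset.card + 1)).card ≤ hFfin.toFinset.card := by
        refine Finset.card_le_card ?_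
        intro x hx
        rw [Finite.mem_toFinset]
        exact hcon _ hx
      have := hcard (hFfin.toFinset.card + 1)
      omega
    have hn := Nat.find_spec hex
    have hmin : ∀ m < Nat.find hex, (X m : Set V) ⊆ F := by
      intro m hm
      by_contra hcon
      exact Nat.find_min hex hm hcon
    obtain ⟨n, hn1⟩ : ∃ n, Nat.find hex = n + 1 := by
      rcases Nat.eq_zero_or_pos (Nat.find hex) with h | h
      · rw [h] at hn
        exact absurd hF0F hn
      · exact ⟨Nat.find hex - 1, by omega⟩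
    rw [hn1] at hn hmin
    have hXn : (X n : Set V) ⊆ F := hmin n (Nat.lt_succ_self n)
    have hne' : ((X (n + 1)).filter (fun v => v ∉ F)).Nonempty := by
      rw [not_subset] at hn
      obtain ⟨v, hv, hvF⟩ := hn
      exact ⟨v, Finset.mem_filter.mpr ⟨hv, hvF⟩⟩
    obtain ⟨v, hv, hmax⟩ := Finset.exists_max_image _ ρ hne'
    rw [Finset.mem_filter] at hv
    obtain ⟨hvX, hvF⟩ := hv
    obtain ⟨hvB, hvA⟩ := hXB _ v hvX
    have hvD : v ∈ D n := by
      have : v ∈ (X (n + 1) : Set V) := hvX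
      rw [hstep] at this
      exact this.resolve_left (fun h => hvF (hXn h))
    refine absurd (hρ v hvB hvA) (not_le.mpr (lt_of_lt_of_le (hKd n v hvD)
      (encard_le_encard ?_)))
    intro x hx
    obtain ⟨a, b, c⟩ := hKsupp n v x hx
    have hGa : G.Adj v x := (hG v x).mpr ⟨n, hx⟩
    have hxB : x ∈ B := by
      rcases b with b | b
      · exact hAB b
      · exact (hXB _ x b).1
    refine ⟨hxB, hGa, ?_⟩
    by_cases hxA : x ∈ A
    · exact Or.inl hxA
    · refine Or.inr ?_
      have hxX : x ∈ X (n + 1) := b.resolve_left hxA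
      by_cases hxF : x ∈ F
      · by_contra hlt
        rw [not_le] at hlt
        rcases hFcl x hxF ⟨hvB, hGa.symm, Or.inr hlt.le⟩ with h | h
        · exact hvA h
        · exact hvF h
      · exact hmax x (Finset.mem_filter.mpr ⟨hxX, hxF⟩)

/-- The countable case. -/
theorem good_of_countable {H : SimpleGraph V} {k : ℕ} {A B : Set V} (hAB : A ⊆ B)
    (hc : (B \ A).Countable) (hF : ¬ Fr H k A B) : Good H k A B := by
  classical
  -- self-sufficient finite sets
  let SS : Finset V → Prop := fun F => ∀ D : Finset V, D.Nonempty →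
    (∀ v ∈ D, (v ∈ B ∧ v ∉ A) ∧ v ∉ F) →
      ∃ v ∈ D, {x | H.Adj v x ∧ (x ∈ A ∪ (F : Set V) ∨ x ∈ D)}.encard ≤ (k : ℕ∞)
  by_cases h0 : SS ∅
  swap
  · simp only [SS] at h0
    push Not at h0
    obtain ⟨D, hne, hD, hdeg⟩ := h0
    refine Good.mono ?_ (good_of_finite A D hne (fun v hv => (hD v hv).1.2) ?_)
    · exact union_subset hAB (fun v hv => (hD v hv).1.1)
    · intro v hv
      have := hdeg v hv
      simpa using this
  by_cases hex : ∃ F0 : Finset V, (∀ v ∈ F0, v ∈ B ∧ v ∉ A) ∧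
      ∀ F : Finset V, F0 ⊆ F → (∀ v ∈ F, v ∈ B ∧ v ∉ A) → ¬ SS F
  · obtain ⟨F0, hF0, hbad⟩ := hex
    have hstep : ∀ F : {F : Finset V // F0 ⊆ F ∧ ∀ v ∈ F, v ∈ B ∧ v ∉ A}, ∃ D : Finset V,
        D.Nonempty ∧ (∀ v ∈ D, (v ∈ B ∧ v ∉ A) ∧ v ∉ F.1) ∧ ∀ v ∈ D, (k : ℕ∞) <
          {x | H.Adj v x ∧ (x ∈ A ∪ (F.1 : Set V) ∨ x ∈ D)}.encard := by
      intro F
      have := hbad F.1 F.2.1 F.2.2
      simp only [SS] at this
      push Not at this
      exact this
    choose Δ hΔ using hstep
    let X : ℕ → {F : Finset V // F0 ⊆ F ∧ ∀ v ∈ F, v ∈ B ∧ v ∉ A} := fun n => Nat.rec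
      ⟨F0, Finset.Subset.refl _, hF0⟩ (fun _ F => ⟨F.1 ∪ Δ F, F.2.1.trans Finset.subset_union_left,
        by
          intro v hv
          rcases Finset.mem_union.mp hv with h | h
          · exact F.2.2 v h
          · exact ((hΔ F).2.1 v h).1⟩) n
    have hX : ∀ n, (X (n + 1)).1 = (X n).1 ∪ Δ (X n) := fun n => rfl
    refine good_of_chain hAB (fun n => (X n).1) (fun n => Δ (X n)) (fun n => (X n).2.2) ?_ ?_ ?_ ?_
    · intro n
      rw [hX]
      push_cast
      rfl
    · intro n
      exact (hΔ _).1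
    · intro n v hv
      exact ((hΔ _).2.1 v hv).2
    · intro n v hv
      exact (hΔ _).2.2 v hv
  · push Not at hex
    exfalso
    apply hF
    rcases (B \ A).eq_empty_or_nonempty with he | hne
    · have : B = A := Subset.antisymm (sdiff_eq_empty.mp he) hAB
      rw [this]
      exact Fr.refl H k A
    obtain ⟨f, hf⟩ := hc.exists_eq_range hne
    have hfB : ∀ n, f n ∈ B ∧ f n ∉ A := by
      intro n
      have : f n ∈ B \ A := hf ▸ mem_range_self n
      exact this
    let S := {F : Finset V // (∀ v ∈ F, v ∈ B ∧ v ∉ A) ∧ SS F}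
    have hstep : ∀ (n : ℕ) (F : S), ∃ F' : S, F.1 ⊆ F'.1 ∧ f n ∈ F'.1 := by
      intro n F
      obtain ⟨F', hsub, hB, hss⟩ := hex (insert (f n) F.1) (by
        intro v hv
        rcases Finset.mem_insert.mp hv with rfl | h
        · exact hfB n
        · exact F.2.1 v h)
      exact ⟨⟨F', hB, hss⟩, (Finset.subset_insert _ _).trans hsub,
        hsub (Finset.mem_insert_self _ _)⟩
    choose N hN using hstep
    let X : ℕ → S := fun n => Nat.rec ⟨∅, by simp, h0⟩ (fun n F => N n F) n
    have hX : ∀ n, X (n + 1) = N n (X n) := fun n => rfl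
    have hX0 : (X 0).1 = ∅ := rfl
    have hmono1 : ∀ n, ((X n).1 : Set V) ⊆ (X (n + 1)).1 := by
      intro n
      rw [hX]
      exact_mod_cast (hN n (X n)).1
    have hmono : ∀ m n, m ≤ n → ((X m).1 : Set V) ⊆ (X n).1 := by
      intro m n h
      induction h with
      | refl => exact Subset.rfl
      | step _ ih => exact ih.trans (hmono1 _)
    have key : Fr H k A (A ∪ ⋃ n, (A ∪ ((X (n + 1)).1 : Set V))) := by
      refine concat (ι := ℕ) (fun n => (n : Ordinal.{u})) natMono
        (fun n => A ∪ ((X n).1 : Set V)) (fun n => A ∪ ((X (n + 1)).1 : Set V)) ?_ ?_ ?_ ?_ ?_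
      · intro n
        exact subset_union_left
      · intro n
        exact union_subset_union_right _ (hmono1 n)
      · intro i j hij
        exact union_subset_union_right _ (hmono _ _ hij)
      · intro i v hv
        rcases Nat.eq_zero_or_pos i with rfl | hi
        · left
          simpa [hX0] using hv
        · refine Or.inr ⟨i - 1, by omega, ?_⟩
          have : i - 1 + 1 = i := by omega
          rw [this]
          exact hv
      · intro n
        have h1 : Fr H k (A ∪ ((X n).1 : Set V)) ((A ∪ ((X n).1 : Set V)) ∪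
            (((X (n + 1)).1 \ (X n).1 : Finset V) : Set V)) := by
          refine fr_of_peel _ _ ?_
          intro D' hD' hne'
          obtain ⟨v, hv, hvk⟩ := (X n).2.2 D' hne' (by
            intro v hv
            have := hD' hv
            rw [Finset.mem_sdiff] at this
            exact ⟨(X (n + 1)).2.1 v this.1, this.2⟩)
          exact ⟨v, hv, hvk⟩
        have h2 : (A ∪ ((X n).1 : Set V)) ∪ (((X (n + 1)).1 \ (X n).1 : Finset V) : Set V) =
            A ∪ ((X (n + 1)).1 : Set V) := by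
          rw [union_assoc, Finset.coe_sdiff, union_sdiff_self,
            union_eq_self_of_subset_left (hmono1 n)]
        rw [h2] at h1
        exact h1
    refine key.mono le_rfl le_rfl ?_
    intro v hv
    by_cases hvA : v ∈ A
    · exact Or.inl hvA
    · refine Or.inr ?_
      have : v ∈ B \ A := ⟨hv, hvA⟩
      rw [hf] at this
      obtain ⟨n, rfl⟩ := this
      refine mem_iUnion.mpr ⟨n, Or.inr ?_⟩
      rw [hX]
      exact_mod_cast (hN n (X n)).2

end Pool.Agent.Helper316_Col
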