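import Pool.Agent.Helper316_Col.Sing

/-!
# The intermediate value property of the colouring number
-/

set_option autoImplicit false

namespace Pool.Agent.Helper316_Col

open Set Cardinal

universe u w

/-- The colouring number of a graph: the least cardinal `κ` such that the vertices can be
well-ordered so that each vertex has fewer than `κ` smaller neighbours. -/
noncomputable def colNum {V : Type u} (G : SimpleGraph V) : Cardinal.{u} :=
  sInf {κ | ∃ r : V → V → Prop, IsWellOrder V r ∧ ∀ x, #{y : V // G.Adj x y ∧ r y x} < κ}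

variable {V : Type u}

theorem good_of_not_fr {H : SimpleGraph V} {k : ℕ} : ∀ (A B : Set V), A ⊆ B → ¬ Fr H k A B →
    Good H k A B := by
  suffices h : ∀ c : Cardinal.{u}, ∀ A B : Set V, #(B \ A : Set V) = c → A ⊆ B → ¬ Fr H k A B →
      Good H k A B from fun A B hAB hF => h _ A B rfl hAB hF
  intro c
  induction c using WellFoundedLT.induction with
  | ind c ih =>
    intro A B hc hAB hF
    rcases le_or_gt c ℵ₀ with h | h
    · refine good_of_countable hAB ?_ hF
      rw [← le_aleph0_iff_set_countable, hc]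
      exact h
    · have IH : ∀ A' B' : Set V, A' ⊆ B' → #(B' \ A' : Set V) < c → ¬ Fr H k A' B' →
          Good H k A' B' := fun A' B' h1 h2 h3 => ih _ h2 A' B' rfl h1 h3
      rcases isRegular_or_isSingular h.le with hr | hs
      · exact reg_case hr h hc hAB IH hF
      · by_cases hex : ∃ C, A ⊆ C ∧ C ⊆ B ∧ #(C \ A : Set V) < c ∧ ¬ Fr H k A C
        · obtain ⟨C, h1, h2, h3, h4⟩ := hex
          exact (IH A C h1 h3 h4).mono h2
        · push Not at hex
          exact absurd (sing_case hs h.le hc hAB hex) hF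

theorem colSet_nonempty (G : SimpleGraph V) :
    {κ : Cardinal.{u} | ∃ r : V → V → Prop, IsWellOrder V r ∧
      ∀ x, #{y : V // G.Adj x y ∧ r y x} < κ}.Nonempty :=
  ⟨Order.succ #V, WellOrderingRel, WellOrderingRel.isWellOrder, fun _ =>
    Order.lt_succ_iff.mpr (mk_subtype_le _)⟩

theorem exists_of_colNum (G : SimpleGraph V) : ∃ r : V → V → Prop, IsWellOrder V r ∧
    ∀ x, #{y : V // G.Adj x y ∧ r y x} < colNum G :=
  csInf_mem (colSet_nonempty G)

theorem colNum_le {G : SimpleGraph V} {κ : Cardinal.{u}} (r : V → V → Prop)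
    (hr : IsWellOrder V r) (h : ∀ x, #{y : V // G.Adj x y ∧ r y x} < κ) : colNum G ≤ κ :=
  csInf_le' ⟨r, hr, h⟩

theorem encard_le_iff (s : Set V) (k : ℕ) : s.encard ≤ (k : ℕ∞) ↔ #s ≤ (k : Cardinal.{u}) := by
  rw [Set.encard, ENat.card, toENat_le_natCast]

theorem colNum_le_iff (G : SimpleGraph V) (k : ℕ) :
    colNum G ≤ ((k + 1 : ℕ) : Cardinal.{u}) ↔ Fr G k ∅ univ := by
  constructor
  · intro h
    obtain ⟨r, hr, hx⟩ := exists_of_colNum G
    refine ⟨fun v => Ordinal.typein r v, ?_⟩
    intro v _ _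
    rw [encard_le_iff]
    have h1 : #{y : V // G.Adj v y ∧ r y v} < ((k + 1 : ℕ) : Cardinal.{u}) :=
      lt_of_lt_of_le (hx v) h
    have h2 : #{y : V // G.Adj v y ∧ r y v} ≤ (k : Cardinal.{u}) := by
      have h3 : ((k + 1 : ℕ) : Cardinal.{u}) = Order.succ (k : Cardinal.{u}) := by
        rw [succ_natCast]
        push_cast
        rfl
      rw [h3] at h1
      exact Order.lt_succ_iff.mp h1
    refine le_trans (mk_le_mk_of_subset ?_) h2
    rintro x ⟨-, ha, hr'⟩
    refine ⟨ha, ?_⟩
    have h4 : Ordinal.typein r x ≤ Ordinal.typein r v := hr'.resolve_left (by simp)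
    rcases lt_or_eq_of_le h4 with h5 | h5
    · exact (Ordinal.typein_lt_typein r).mp h5
    · exact absurd ((Ordinal.typein_inj r).mp h5) ha.ne'
  · intro h
    obtain ⟨ρ, hρ, hinj⟩ := h.inj
    have hwo : IsWellOrder V (fun x y => ρ x < ρ y) := by
      let f : (fun x y : V => ρ x < ρ y) ↪r ((· < ·) : Ordinal.{u} → Ordinal.{u} → Prop) :=
        ⟨⟨ρ, hinj⟩, Iff.rfl⟩
      exact f.isWellOrder
    refine colNum_le _ hwo ?_
    intro x
    have h1 := hρ x (mem_univ x) (notMem_empty x)
    rw [encard_le_iff] at h1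
    have h2 : #{y : V // G.Adj x y ∧ ρ y < ρ x} ≤ (k : Cardinal.{u}) := by
      refine le_trans (mk_le_mk_of_subset ?_) h1
      rintro y ⟨ha, hr⟩
      exact ⟨mem_univ y, ha, Or.inr hr.le⟩
    refine lt_of_le_of_lt h2 ?_
    exact_mod_cast Nat.lt_succ_self k

theorem colNum_congr_le {V W : Type u} {G : SimpleGraph V} {H : SimpleGraph W} (e : G ≃g H) :
    colNum G ≤ colNum H := by
  obtain ⟨r, hr, hx⟩ := exists_of_colNum H
  let f : (fun x y : V => r (e x) (e y)) ↪r r := ⟨e.toEquiv.toEmbedding, Iff.rfl⟩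
  refine colNum_le (fun x y => r (e x) (e y)) f.isWellOrder ?_
  intro x
  refine lt_of_le_of_lt ?_ (hx (e x))
  refine mk_le_of_injective (f := fun y : {y : V // G.Adj x y ∧ r (e y) (e x)} =>
    (⟨e y.1, e.map_adj_iff.mpr y.2.1, y.2.2⟩ : {y : W // H.Adj (e x) y ∧ r y (e x)})) ?_
  intro y z hyz
  have : e y.1 = e z.1 := congrArg Subtype.val hyz
  exact Subtype.ext (e.injective this)

theorem colNum_congr {V W : Type u} {G : SimpleGraph V} {H : SimpleGraph W} (e : G ≃g H) :
    colNum G = colNum H :=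
  le_antisymm (colNum_congr_le e) (colNum_congr_le e.symm)

theorem colNum_spanning {G K : SimpleGraph V} (h : K ≤ G) :
    colNum (SimpleGraph.toSubgraph K h).coe = colNum K := by
  refine colNum_congr ⟨⟨fun x => x.1, fun x => ⟨x, mem_univ x⟩, fun x => by simp, fun x => by simp⟩,
    ?_⟩
  intro a b
  rfl

theorem colNum_empty [IsEmpty V] (G : SimpleGraph V) : colNum G = 0 := by
  refine le_antisymm (colNum_le WellOrderingRel WellOrderingRel.isWellOrder ?_) (zero_le)
  intro x
  exact isEmptyElim x

/-- The intermediate value property. -/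
theorem exists_subgraph (G : SimpleGraph V) (n : ℕ) (hn : (n : Cardinal.{u}) ≤ colNum G) :
    ∃ G' : G.Subgraph, (n ≠ 0 → G'.IsSpanning) ∧ colNum G'.coe = n := by
  rcases Nat.eq_zero_or_pos n with rfl | hpos
  · refine ⟨⊥, fun h => absurd rfl h, ?_⟩
    have : IsEmpty ((⊥ : G.Subgraph).verts) := by
      rw [SimpleGraph.Subgraph.verts_bot]
      infer_instance
    rw [colNum_empty]
    simp
  · have hK : ∃ K ≤ G, colNum K = n := by
      obtain rfl | ⟨k, rfl⟩ : n = 1 ∨ ∃ k, n = k + 2 := by
        rcases Nat.lt_or_ge n 2 with h | h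
        · left; omega
        · right; exact ⟨n - 2, by omega⟩
      · refine ⟨⊥, bot_le, ?_⟩
        have hne : Nonempty V := by
          by_contra hcon
          rw [not_nonempty_iff] at hcon
          rw [colNum_empty] at hn
          simp at hn
        refine le_antisymm (colNum_le WellOrderingRel WellOrderingRel.isWellOrder ?_) ?_
        · intro x
          have : IsEmpty {y : V // (⊥ : SimpleGraph V).Adj x y ∧ WellOrderingRel y x} :=
            ⟨fun y => by simpa using y.2.1⟩
          rw [mk_eq_zero]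
          simp
        · obtain ⟨r, hr, hx⟩ := exists_of_colNum (⊥ : SimpleGraph V)
          have h1 := hx (Classical.choice hne)
          have h2 : (1 : Cardinal.{u}) ≤ colNum (⊥ : SimpleGraph V) :=
            Cardinal.one_le_iff_ne_zero.mpr (ne_of_gt (lt_of_le_of_lt (zero_le) h1))
          simpa using h2
      · have hF : ¬ Fr G k ∅ univ := by
          rw [← colNum_le_iff, not_le]
          refine lt_of_lt_of_le ?_ hn
          exact_mod_cast Nat.lt_succ_self (k + 1)
        obtain ⟨K, hKG, -, h1, h2⟩ := good_of_not_fr ∅ univ (subset_univ _) hF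
        refine ⟨K, hKG, ?_⟩
        rw [← colNum_le_iff] at h1 h2
        rw [not_le] at h2
        obtain ⟨m, hm⟩ := lt_aleph0.mp (lt_of_le_of_lt h1 (natCast_lt_aleph0))
        rw [hm] at h1 h2 ⊢
        have h3 : m ≤ k + 1 + 1 := by exact_mod_cast h1
        have h4 : k + 1 < m := by exact_mod_cast h2
        have : m = k + 2 := by omega
        rw [this]
    obtain ⟨K, hKG, hKc⟩ := hK
    refine ⟨SimpleGraph.toSubgraph K hKG, fun _ => SimpleGraph.toSubgraph.isSpanning K hKG, ?_⟩
    rw [colNum_spanning, hKc]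

end Pool.Agent.Helper316_Col
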