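import Pool.Agent.Helper316_Col.Chain

/-!
# The regular uncountable case
-/

set_option autoImplicit false

namespace Pool.Agent.Helper316_Col

open Set Cardinal

universe u w

variable {V : Type u}

theorem typein_mono {T : Type u} [LinearOrder T] [WellFoundedLT T] :
    StrictMono (fun a : T => Ordinal.typein (α := T) (· < ·) a) := by
  intro a b h
  exact (Ordinal.typein_lt_typein (α := T) (· < ·)).mpr h

theorem reg_case {H : SimpleGraph V} {k : ℕ} {A B : Set V} {θ : Cardinal.{u}}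
    (hθ : θ.IsRegular) (hω : ℵ₀ < θ) (hcard : #(B \ A : Set V) = θ) (hAB : A ⊆ B)
    (IH : ∀ A' B', A' ⊆ B' → #(B' \ A' : Set V) < θ → ¬ Fr H k A' B' → Good H k A' B')
    (hF : ¬ Fr H k A B) : Good H k A B := by
  classical
  have hθω := hθ.aleph0_le
  -- enumeration
  obtain ⟨e⟩ : Nonempty (θ.ord.ToType ≃ (B \ A : Set V)) := by
    rw [← Cardinal.eq, hcard, mk_ord_toType]
  -- the successor function
  have hcf : ∀ Y : Set V, ∃ C : Set V, ((∃ C, Y ⊆ C ∧ C ⊆ B ∧ #(C \ A : Set V) < θ ∧ ¬ Fr H k Y C) →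
      (Y ⊆ C ∧ C ⊆ B ∧ #(C \ A : Set V) < θ ∧ ¬ Fr H k Y C)) ∧
      ((¬ ∃ C, Y ⊆ C ∧ C ⊆ B ∧ #(C \ A : Set V) < θ ∧ ¬ Fr H k Y C) → C = Y) := by
    intro Y
    by_cases h : ∃ C, Y ⊆ C ∧ C ⊆ B ∧ #(C \ A : Set V) < θ ∧ ¬ Fr H k Y C
    · obtain ⟨C, hC⟩ := h
      exact ⟨C, fun _ => hC, fun h' => absurd ⟨C, hC⟩ h'⟩
    · exact ⟨Y, fun h' => absurd h' h, fun _ => rfl⟩
  choose cf hcf1 hcf2 using hcf
  have hcfsub : ∀ Y, Y ⊆ cf Y := by
    intro Y
    by_cases h : ∃ C, Y ⊆ C ∧ C ⊆ B ∧ #(C \ A : Set V) < θ ∧ ¬ Fr H k Y C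
    · exact (hcf1 Y h).1
    · rw [hcf2 Y h]
  have hcfB : ∀ Y, Y ⊆ B → cf Y ⊆ B := by
    intro Y hY
    by_cases h : ∃ C, Y ⊆ C ∧ C ⊆ B ∧ #(C \ A : Set V) < θ ∧ ¬ Fr H k Y C
    · exact (hcf1 Y h).2.1
    · rw [hcf2 Y h]
      exact hY
  have hcfcard : ∀ Y, #(Y \ A : Set V) < θ → #(cf Y \ A : Set V) < θ := by
    intro Y hY
    by_cases h : ∃ C, Y ⊆ C ∧ C ⊆ B ∧ #(C \ A : Set V) < θ ∧ ¬ Fr H k Y C
    · exact (hcf1 Y h).2.2.1
    · rw [hcf2 Y h]
      exact hY
  let g : θ.ord.ToType → Set V → Set V := fun a Y => cf Y ∪ {(e a : V)}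
  have heB : ∀ a, (e a : V) ∈ B := fun a => (e a).2.1
  have heA : ∀ a, (e a : V) ∉ A := fun a => (e a).2.2
  let Y : θ.ord.ToType → Set V := chain A g
  let U : θ.ord.ToType → Set V := fun a => g a (Y a)
  have hYB : ∀ a, Y a ⊆ B := fun a => chain_subset hAB (fun a Z hZ =>
    union_subset (hcfB Z hZ) (by intro x hx; rw [mem_singleton_iff] at hx; rw [hx]; exact heB a)) a
  have hYU : ∀ a, Y a ⊆ U a := fun a => (hcfsub _).trans subset_union_left
  have hUB : ∀ a, U a ⊆ B := fun a => union_subset (hcfB _ (hYB a))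
    (by intro x hx; rw [mem_singleton_iff] at hx; rw [hx]; exact heB a)
  have hUY : ∀ a b, a < b → U a ⊆ Y b := fun a b h => g_subset_chain A g h
  have hAY : ∀ a, A ⊆ Y a := fun a => subset_chain A g a
  have heU : ∀ a, (e a : V) ∈ U a := fun a => Or.inr rfl
  have hlim : ∀ a, ∀ v ∈ Y a, v ∈ A ∨ ∃ b < a, v ∈ U b := fun a v hv => (mem_chain A g a v).mp hv
  have hgcard : ∀ a Z, #(Z \ A : Set V) < θ → #(g a Z \ A : Set V) < θ := by
    intro a Z hZ
    have h1 : (g a Z \ A : Set V) ⊆ (cf Z \ A) ∪ {(e a : V)} := by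
      rintro x ⟨hx | hx, hxA⟩
      · exact Or.inl ⟨hx, hxA⟩
      · exact Or.inr hx
    refine lt_of_le_of_lt (mk_le_mk_of_subset h1) (lt_of_le_of_lt (mk_union_le _ _) ?_)
    refine add_lt_of_lt hθω (hcfcard Z hZ) ?_
    rw [mk_singleton]
    exact lt_of_lt_of_le one_lt_aleph0 hθω
  have hYcard : ∀ a, #(Y a \ A : Set V) < θ := by
    intro a
    refine chain_card (P := fun _ => True) hθ (fun a => mk_Iio_ord_toType a) ?_ (fun _ => trivial)
      (fun a Z _ hZ => hgcard a Z hZ) a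
    rw [sdiff_self]
    simpa using lt_of_lt_of_le aleph0_pos hθω
  have hUcard : ∀ a, #(U a \ A : Set V) < θ := fun a => hgcard a _ (hYcard a)
  -- the graphs
  have hK : ∀ a, ∃ K ≤ H, Supp K (Y a) (U a) ∧ Fr K (k + 1) (Y a) (U a) ∧
      (¬ Fr H k (Y a) (U a) → ¬ Fr K k (Y a) (U a)) := by
    intro a
    by_cases h : Fr H k (Y a) (U a)
    · refine ⟨⊥, bot_le, ?_, ?_, fun h' => absurd h h'⟩
      · intro v x hvx
        exact absurd hvx (by simp)
      · exact h.mono bot_le (Nat.le_succ k) Subset.rfl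
    · have h1 : #(U a \ Y a : Set V) < θ := lt_of_le_of_lt
        (mk_le_mk_of_subset (sdiff_subset_sdiff_right (hAY a))) (hUcard a)
      obtain ⟨K, h2, h3, h4, h5⟩ := IH _ _ (hYU a) h1 h
      exact ⟨K, h2, h3, h4, fun _ => h5⟩
  choose K hKH hKs hKF hKb using hK
  let G : SimpleGraph V := ⨆ a, K a
  have hG : ∀ v x, G.Adj v x ↔ ∃ a, (K a).Adj v x := by
    intro v x
    simp only [G, SimpleGraph.iSup_adj]
  have hKG : ∀ a, K a ≤ G := fun a => le_iSup K a
  have hloc : ∀ a v x, v ∈ U a → v ∉ Y a → x ∈ U a → G.Adj v x → (K a).Adj v x := by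
    intro a v x hv hv' hx h
    obtain ⟨b, hb⟩ := (hG v x).mp h
    obtain ⟨h1, h2, h3⟩ := hKs b v x hb
    rcases lt_trichotomy a b with hab | hab | hab
    · rcases h3 with h3 | h3
      · exact absurd (hUY a b hab hv) h3
      · exact absurd (hUY a b hab hx) h3
    · rw [hab]
      exact hb
    · exact absurd (hUY b a hab h1) hv'
  refine ⟨G, ?_, ?_, ?_, ?_⟩
  · intro v x h
    obtain ⟨m, hm⟩ := (hG v x).mp h
    exact hKH m hm
  · intro v x h
    obtain ⟨m, hm⟩ := (hG v x).mp h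
    obtain ⟨a, b, c⟩ := hKs m v x hm
    exact ⟨hUB m a, hUB m b, c.imp (fun h h' => h (hAY m h')) (fun h h' => h (hAY m h'))⟩
  · have key : Fr G (k + 1) A (A ∪ ⋃ a, U a) := by
      refine concat _ typein_mono Y U hAY hYU hUY hlim ?_
      intro a
      obtain ⟨ρ, hρ⟩ := hKF a
      refine ⟨ρ, ?_⟩
      intro v hv hvA
      refine le_trans (encard_le_encard ?_) (hρ v hv hvA)
      rintro x ⟨hx, ha, hr⟩
      exact ⟨hx, hloc a v x hv hvA hx ha, hr⟩
    refine key.mono le_rfl le_rfl ?_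
    intro v hv
    by_cases hvA : v ∈ A
    · exact Or.inl hvA
    · refine Or.inr (mem_iUnion.mpr ⟨e.symm ⟨v, hv, hvA⟩, ?_⟩)
      have := heU (e.symm ⟨v, hv, hvA⟩)
      rwa [Equiv.apply_symm_apply] at this
  · rintro ⟨ρ, hρ⟩
    have hinU : ∀ v ∈ B, v ∉ A → ∃ a, v ∈ U a := by
      intro v hv hvA
      refine ⟨e.symm ⟨v, hv, hvA⟩, ?_⟩
      have := heU (e.symm ⟨v, hv, hvA⟩)
      rwa [Equiv.apply_symm_apply] at this
    have hcl : ∀ a0, ∃ a, a0 ≤ a ∧ ∀ v ∈ Y a, v ∉ A → bk G A B ρ v ⊆ Y a := by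
      intro a0
      refine close_off hθ hω Y U hAY hUY hlim hYcard (fun v => bk G A B ρ v) ?_ ?_ a0
      · intro a v hv hvA
        exact finite_of_encard_le_coe (hρ v (hYB a hv) hvA)
      · intro a v hv hvA x hx
        by_cases hxA : x ∈ A
        · exact Or.inl hxA
        · obtain ⟨b, hb⟩ := hinU x hx.1 hxA
          exact Or.inr (mem_iUnion.mpr ⟨b, hb⟩)
    have hgood : ∀ a, (∀ v ∈ Y a, v ∉ A → bk G A B ρ v ⊆ Y a) →
        ∀ C, Y a ⊆ C → C ⊆ B → #(C \ A : Set V) < θ → Fr H k (Y a) C := by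
      intro a ha C h1 h2 h3
      by_contra hcon
      have hbad : ∃ C, Y a ⊆ C ∧ C ⊆ B ∧ #(C \ A : Set V) < θ ∧ ¬ Fr H k (Y a) C :=
        ⟨C, h1, h2, h3, hcon⟩
      have h4 := (hcf1 (Y a) hbad).2.2.2
      have h5 : ¬ Fr H k (Y a) (U a) := fun h => h4 (h.mono le_rfl le_rfl subset_union_left)
      have h6 := hKb a h5
      have h7 : Wit G k (Y a) B ρ := hρ.closed (hAY a) ha
      exact h6 ⟨ρ, h7.mono (hKG a) le_rfl (hUB a)⟩
    apply hF
    refine fr_of_family {Z | Z = B ∨ ∃ a, (∀ v ∈ Y a, v ∉ A → bk G A B ρ v ⊆ Y a) ∧ Z = Y a}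
      ?_ ?_ ?_
    · -- the bottom
      right
      have hne : (univ : Set θ.ord.ToType).Nonempty := by
        have : Nonempty θ.ord.ToType := by
          rw [← mk_ne_zero_iff, mk_ord_toType]
          exact hθ.ne_zero
        exact univ_nonempty
      let a := WellFounded.min (wellFounded_lt (α := θ.ord.ToType)) univ hne
      have ha : ∀ b, ¬ b < a := fun b =>
        WellFounded.not_lt_min (wellFounded_lt (α := θ.ord.ToType)) univ (mem_univ b)
      have hYa : A = Y a := by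
        refine Subset.antisymm (hAY a) ?_
        intro v hv
        rcases hlim a v hv with h | ⟨b, hb, -⟩
        · exact h
        · exact absurd hb (ha b)
      refine ⟨a, ?_, hYa⟩
      intro v hv hvA
      rw [← hYa] at hv
      exact absurd hv hvA
    · intro c hc hcne hchain
      by_cases hBc : B ∈ c
      · left
        refine Subset.antisymm ?_ (subset_sUnion_of_mem hBc)
        refine sUnion_subset ?_
        intro Z hZ
        rcases hc hZ with rfl | ⟨a, -, rfl⟩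
        · exact Subset.rfl
        · exact hYB a
      · let S : Set θ.ord.ToType := {a | (∀ v ∈ Y a, v ∉ A → bk G A B ρ v ⊆ Y a) ∧ Y a ∈ c}
        have hcS : ∀ Z ∈ c, ∃ a ∈ S, Z = Y a := by
          intro Z hZ
          rcases hc hZ with rfl | ⟨a, ha, rfl⟩
          · exact absurd hZ hBc
          · exact ⟨a, ⟨ha, hZ⟩, rfl⟩
        by_cases hbd : ∃ b, ∀ a ∈ S, a ≤ b
        · -- bounded
          right
          obtain ⟨s, hs, hmin⟩ : ∃ s, (∀ a ∈ S, a ≤ s) ∧ ∀ b < s, ∃ a ∈ S, b < a := by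
            refine ⟨WellFounded.min (wellFounded_lt (α := θ.ord.ToType)) {b | ∀ a ∈ S, a ≤ b} hbd,
              WellFounded.min_mem (wellFounded_lt (α := θ.ord.ToType)) {b | ∀ a ∈ S, a ≤ b} hbd, ?_⟩
            intro b hb
            by_contra hcon
            push Not at hcon
            exact WellFounded.not_lt_min (wellFounded_lt (α := θ.ord.ToType))
              {b | ∀ a ∈ S, a ≤ b} hcon hb
          have hYs : ⋃₀ c = Y s := by
            refine Subset.antisymm ?_ ?_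
            · refine sUnion_subset ?_
              intro Z hZ
              obtain ⟨a, ha, rfl⟩ := hcS Z hZ
              exact chain_mono A g (hs a ha)
            · intro v hv
              rcases hlim s v hv with h | ⟨b, hb, h⟩
              · obtain ⟨Z, hZ⟩ := hcne
                obtain ⟨a, ha, rfl⟩ := hcS Z hZ
                exact ⟨_, hZ, hAY a h⟩
              · obtain ⟨a, ha, hba⟩ := hmin b hb
                exact ⟨_, ha.2, hUY b a hba h⟩
          refine ⟨s, ?_, hYs⟩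
          intro v hv hvA
          rw [← hYs] at hv ⊢
          obtain ⟨Z, hZ, hvZ⟩ := hv
          obtain ⟨a, ha, rfl⟩ := hcS Z hZ
          exact (ha.1 v hvZ hvA).trans (subset_sUnion_of_mem hZ)
        · -- unbounded
          left
          push Not at hbd
          refine Subset.antisymm ?_ ?_
          · refine sUnion_subset ?_
            intro Z hZ
            obtain ⟨a, ha, rfl⟩ := hcS Z hZ
            exact hYB a
          · intro v hv
            by_cases hvA : v ∈ A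
            · obtain ⟨Z, hZ⟩ := hcne
              obtain ⟨a, ha, rfl⟩ := hcS Z hZ
              exact ⟨_, hZ, hAY a hvA⟩
            · obtain ⟨b, hb⟩ := hinU v hv hvA
              obtain ⟨a, ha, hba⟩ := hbd b
              exact ⟨_, ha.2, hUY b a hba hb⟩
    · rintro Z hZ hZB
      rcases hZ with hZ | ⟨a, ha, rfl⟩
      · exact absurd hZ hZB
      · obtain ⟨v, hv, hvY⟩ : ∃ v ∈ B, v ∉ Y a := by
          by_contra hcon
          push Not at hcon
          exact hZB (Subset.antisymm (hYB a) hcon)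
        obtain ⟨b, hb⟩ := hinU v hv (fun h => hvY (hAY a h))
        obtain ⟨b', hb'⟩ := exists_gt' hθ b
        obtain ⟨a', ha', hcla'⟩ := hcl (max a b')
        have h1 : a ≤ a' := (le_max_left _ _).trans ha'
        have h2 : b < a' := lt_of_lt_of_le hb' ((le_max_right _ _).trans ha')
        refine ⟨Y a', Or.inr ⟨a', hcla', rfl⟩, ?_, ?_⟩
        · refine ⟨chain_mono A g h1, fun h => hvY (h (hUY b a' h2 hb))⟩
        · exact hgood a ha (Y a') (chain_mono A g h1) (hYB a') (hYcard a')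

end Pool.Agent.Helper316_Col
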