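import Pool.Agent.Helper316_Col.Reg

/-!
# The singular case (Shelah's compactness theorem for the relative colouring number)
-/

set_option autoImplicit false

namespace Pool.Agent.Helper316_Col

open Set Cardinal

universe u w

variable {V : Type u}

theorem mk_biUnion_le' {ι : Type u} {c : Cardinal.{u}} (hc : ℵ₀ ≤ c) {S : Set ι}
    (hS : #S ≤ c) (f : ι → Set V) (hf : ∀ i ∈ S, #(f i) ≤ c) : #(⋃ i ∈ S, f i : Set V) ≤ c := by
  rw [biUnion_eq_iUnion]
  refine (mk_iUnion_le _).trans ?_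
  calc #S * ⨆ i : S, #(f i.1) ≤ c * c := by
        refine mul_le_mul' hS ?_
        exact ciSup_le' (fun i => hf i.1 i.2)
    _ = c := mul_eq_self hc

/-- Every small set is contained in a closed one. -/
theorem exists_closed {H : SimpleGraph V} {k : ℕ} {A B : Set V} {κ : Cardinal.{u}} (hκ : ℵ₀ ≤ κ)
    (hfree : ∀ C, A ⊆ C → C ⊆ B → #(C \ A : Set V) ≤ Order.succ κ → Fr H k A C)
    (T : Set V) (hAT : A ⊆ T) (hTB : T ⊆ B) (hT : #(T \ A : Set V) ≤ κ) :
    ∃ Y, T ⊆ Y ∧ Y ⊆ B ∧ #(Y \ A : Set V) ≤ κ ∧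
      ∀ C, Y ⊆ C → C ⊆ B → #(C \ A : Set V) ≤ κ → Fr H k Y C := by
  classical
  by_contra hcon
  push Not at hcon
  obtain ⟨θ, hθ⟩ : ∃ θ : Cardinal.{u}, θ = Order.succ κ := ⟨_, rfl⟩
  have hreg : θ.IsRegular := hθ ▸ isRegular_succ hκ
  have hω : ℵ₀ < θ := hθ ▸ lt_of_le_of_lt hκ (Order.lt_succ κ)
  have hlt : ∀ c : Cardinal.{u}, c < θ ↔ c ≤ κ := by
    intro c
    rw [hθ]
    exact Order.lt_succ_iff
  have hg : ∀ Y : Set V, ∃ C, (T ⊆ Y → Y ⊆ B → #(Y \ A : Set V) ≤ κ →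
      (Y ⊆ C ∧ C ⊆ B ∧ #(C \ A : Set V) ≤ κ ∧ ¬ Fr H k Y C)) := by
    intro Y
    by_cases h : T ⊆ Y ∧ Y ⊆ B ∧ #(Y \ A : Set V) ≤ κ
    · obtain ⟨C, h1, h2, h3, h4⟩ := hcon Y h.1 h.2.1 h.2.2
      exact ⟨C, fun _ _ _ => ⟨h1, h2, h3, h4⟩⟩
    · exact ⟨Y, fun h1 h2 h3 => absurd ⟨h1, h2, h3⟩ h⟩
  choose g hg using hg
  let Y : θ.ord.ToType → Set V := chain T (fun _ Z => g Z)
  have hTY : ∀ a, T ⊆ Y a := fun a => subset_chain _ _ a
  -- all members of the chain are good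
  have hY : ∀ a, Y a ⊆ B ∧ #(Y a \ A : Set V) ≤ κ := by
    intro a
    induction a using WellFoundedLT.induction with
    | ind a ih =>
      have h1 : ∀ b < a, g (Y b) ⊆ B ∧ #(g (Y b) \ A : Set V) ≤ κ := by
        intro b hb
        obtain ⟨-, h2, h3, -⟩ := hg (Y b) (hTY b) (ih b hb).1 (ih b hb).2
        exact ⟨h2, h3⟩
      constructor
      · intro v hv
        rcases (mem_chain _ _ _ _).mp hv with h | ⟨b, hb, h⟩
        · exact hTB h
        · exact (h1 b hb).1 h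
      · have h2 : (Y a \ A : Set V) ⊆ (T \ A) ∪ ⋃ b ∈ Iio a, (g (Y b) \ A) := by
          rintro v ⟨hv, hvA⟩
          rcases (mem_chain _ _ _ _).mp hv with h | ⟨b, hb, h⟩
          · exact Or.inl ⟨h, hvA⟩
          · refine Or.inr ?_
            simp only [mem_iUnion]
            exact ⟨b, hb, h, hvA⟩
        refine (mk_le_mk_of_subset h2).trans ((mk_union_le _ _).trans ?_)
        refine add_le_of_le hκ hT (mk_biUnion_le' hκ ?_ _ (fun b hb => (h1 b hb).2))
        exact (hlt _).mp (mk_Iio_toType_ord_lt a)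
  let U : θ.ord.ToType → Set V := fun a => g (Y a)
  have hUg := fun a => hg (Y a) (hTY a) (hY a).1 (hY a).2
  have hUY : ∀ a b, a < b → U a ⊆ Y b := fun a b h => g_subset_chain T (fun _ Z => g Z) h
  have hlim : ∀ a, ∀ v ∈ Y a, v ∈ T ∨ ∃ b < a, v ∈ U b := fun a v hv => (mem_chain _ _ a v).mp hv
  have hX : Fr H k A (T ∪ ⋃ a, U a) := by
    refine hfree _ (hAT.trans subset_union_left) ?_ ?_
    · exact union_subset hTB (iUnion_subset fun a => (hUg a).2.1)
    · have h2 : ((T ∪ ⋃ a, U a) \ A : Set V) ⊆ (T \ A) ∪ ⋃ a ∈ (univ : Set θ.ord.ToType),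
          (U a \ A) := by
        rintro v ⟨hv | hv, hvA⟩
        · exact Or.inl ⟨hv, hvA⟩
        · refine Or.inr ?_
          simp only [mem_iUnion] at hv ⊢
          obtain ⟨b, hb⟩ := hv
          exact ⟨b, mem_univ b, hb, hvA⟩
      refine (mk_le_mk_of_subset h2).trans ((mk_union_le _ _).trans ?_)
      rw [← hθ]
      have hκθ : κ ≤ θ := hθ ▸ Order.le_succ κ
      refine add_le_of_le hω.le (hT.trans hκθ) (mk_biUnion_le' hω.le ?_ _
        (fun b _ => (hUg b).2.2.1.trans hκθ))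
      rw [mk_univ, mk_ord_toType]
  obtain ⟨ρ, hρ⟩ := hX
  have hYX : ∀ a, Y a ⊆ T ∪ ⋃ a, U a := by
    intro a v hv
    rcases hlim a v hv with h | ⟨b, -, h⟩
    · exact Or.inl h
    · exact Or.inr (mem_iUnion.mpr ⟨b, h⟩)
  have hne : Nonempty θ.ord.ToType := by
    rw [← mk_ne_zero_iff, mk_ord_toType]
    exact hreg.ne_zero
  obtain ⟨a, -, ha⟩ := close_off hreg hω (A := A) Y U hTY hUY hlim
    (fun a => (hlt _).mpr (hY a).2) (fun v => bk H A (T ∪ ⋃ a, U a) ρ v)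
    (fun a v hv hvA => finite_of_encard_le_coe (hρ v (hYX a hv) hvA))
    (fun a v hv hvA x hx => hx.1) (Classical.choice hne)
  have h1 : Wit H k (Y a) (T ∪ ⋃ a, U a) ρ := hρ.closed (hAT.trans (hTY a)) ha
  refine (hUg a).2.2.2 ⟨ρ, h1.mono le_rfl le_rfl ?_⟩
  intro v hv
  exact Or.inr (mem_iUnion.mpr ⟨a, hv⟩)

/-- The singular case. -/
theorem sing_case {H : SimpleGraph V} {k : ℕ} {A B : Set V} {μ : Cardinal.{u}}
    (hμ : μ.IsSingular) (hω : ℵ₀ ≤ μ) (hcard : #(B \ A : Set V) = μ) (hAB : A ⊆ B)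
    (hsmall : ∀ C, A ⊆ C → C ⊆ B → #(C \ A : Set V) < μ → Fr H k A C) : Fr H k A B := by
  classical
  obtain ⟨e⟩ : Nonempty (μ.ord.ToType ≃ (B \ A : Set V)) := by
    rw [← Cardinal.eq, hcard, mk_ord_toType]
  obtain ⟨I, hI, hIc⟩ := Order.exists_cof_eq μ.ord.ToType
  rw [Ordinal.cof_toType] at hIc
  have hIlt : #I < μ := by
    rw [hIc]
    exact hμ.cof_ord_lt
  have hωμ : ℵ₀ < μ := by
    refine lt_of_le_of_ne hω ?_
    rintro rfl
    exact hμ.not_isRegular isRegular_aleph0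
  let c : I → Cardinal.{u} := fun i => max (max ℵ₀ #I) #(Iio (i : μ.ord.ToType))
  have hcω : ∀ i, ℵ₀ ≤ c i := fun i => (le_max_left _ _).trans (le_max_left _ _)
  have hcI : ∀ i, #I ≤ c i := fun i => (le_max_right _ _).trans (le_max_left _ _)
  have hcμ : ∀ i, c i < μ := fun i => max_lt (max_lt hωμ hIlt) (mk_Iio_toType_ord_lt _)
  have hcmono : ∀ i j : I, i ≤ j → c i ≤ c j := fun i j hij =>
    max_le_max le_rfl (mk_le_mk_of_subset (Iio_subset_Iio hij))
  have hsucc : ∀ i, Order.succ (c i) < μ := fun i => hμ.isSuccLimit.succ_lt (hcμ i)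
  let E : I → Set V := fun i => (fun t => (e t : V)) '' (Iic (i : μ.ord.ToType))
  have hEB : ∀ i, E i ⊆ B := by
    rintro i v ⟨t, -, rfl⟩
    exact (e t).2.1
  have hEcard : ∀ i, #(E i) ≤ c i := by
    intro i
    refine mk_image_le.trans ?_
    have h1 : Iic (i : μ.ord.ToType) ⊆ Iio (i : μ.ord.ToType) ∪ {(i : μ.ord.ToType)} := by
      intro t ht
      rcases lt_or_eq_of_le (mem_Iic.mp ht) with h | h
      · exact Or.inl h
      · exact Or.inr h
    refine (mk_le_mk_of_subset h1).trans ((mk_union_le _ _).trans ?_)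
    refine add_le_of_le (hcω i) (le_max_right _ _) ?_
    rw [mk_singleton]
    exact one_le_aleph0.trans (hcω i)
  -- states
  let Inv : (I → Set V) → (I → V → Ordinal.{u}) → Prop := fun F ρ => ∀ i,
    A ⊆ F i ∧ F i ⊆ B ∧ #(F i \ A : Set V) ≤ c i ∧
    (∀ C, F i ⊆ C → C ⊆ B → #(C \ A : Set V) ≤ c i → Fr H k (F i) C) ∧ Wit H k A (F i) (ρ i)
  let St := {p : (I → Set V) × (I → V → Ordinal.{u}) // Inv p.1 p.2}
  have hstep : ∀ S : St, ∃ S' : St, ∀ i, S.1.1 i ⊆ S'.1.1 i ∧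
      (∀ v ∈ S.1.1 i, S'.1.2 i v = S.1.2 i v) ∧
      (∀ v ∈ S.1.1 i, ∀ x, x ∉ S.1.1 i → S'.1.2 i v < S'.1.2 i x) ∧
      E i ⊆ S'.1.1 i ∧ (∀ j ≤ i, S.1.1 j ⊆ S'.1.1 i) ∧
      (∀ j, i < j → ∀ v ∈ S.1.1 i, v ∈ S.1.1 j → v ∉ A →
        bk H A (S.1.1 j) (S.1.2 j) v ⊆ S'.1.1 i) := by
    rintro ⟨⟨F, ρ⟩, hinv⟩
    simp only [Inv] at hinv
    have h1 : ∀ i, ∃ F', F i ⊆ F' ∧ E i ⊆ F' ∧ (∀ j ≤ i, F j ⊆ F') ∧
        (∀ j, i < j → ∀ v ∈ F i, v ∈ F j → v ∉ A → bk H A (F j) (ρ j) v ⊆ F') ∧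
        F' ⊆ B ∧ #(F' \ A : Set V) ≤ c i ∧
        ∀ C, F' ⊆ C → C ⊆ B → #(C \ A : Set V) ≤ c i → Fr H k F' C := by
      intro i
      let Bk : I → V → Set V := fun j v => if v ∈ F j ∧ v ∉ A then bk H A (F j) (ρ j) v else ∅
      have hBk : ∀ j v, #(Bk j v) ≤ c i := by
        intro j v
        by_cases h : v ∈ F j ∧ v ∉ A
        · simp only [Bk, if_pos h]
          have h2 := (hinv j).2.2.2.2 v h.1 h.2
          have h3 : (bk H A (F j) (ρ j) v).Finite := finite_of_encard_le_coe h2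
          exact (le_aleph0_iff_set_countable.mpr h3.countable).trans (hcω i)
        · simp only [Bk, if_neg h]
          simp
      have hBkB : ∀ j v, Bk j v ⊆ B := by
        intro j v
        by_cases h : v ∈ F j ∧ v ∉ A
        · simp only [Bk, if_pos h]
          exact fun x hx => (hinv j).2.1 hx.1
        · simp only [Bk, if_neg h]
          exact empty_subset _
      let T : Set V := F i ∪ (E i ∪ ((⋃ j ∈ Iic i, F j) ∪
        ⋃ j ∈ (univ : Set I), ⋃ v ∈ (F i \ A : Set V), Bk j v))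
      have hTA : A ⊆ T := (hinv i).1.trans subset_union_left
      have hTB : T ⊆ B := by
        refine union_subset (hinv i).2.1 (union_subset (hEB i) (union_subset ?_ ?_))
        · exact iUnion₂_subset fun j _ => (hinv j).2.1
        · exact iUnion₂_subset fun j _ => iUnion₂_subset fun v _ => hBkB j v
      have hTc : #(T \ A : Set V) ≤ c i := by
        have h2 : (T \ A : Set V) ⊆ (F i \ A) ∪ (E i ∪ ((⋃ j ∈ Iic i, (F j \ A)) ∪
            ⋃ j ∈ (univ : Set I), ⋃ v ∈ (F i \ A : Set V), Bk j v)) := by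
          rintro v ⟨hv, hvA⟩
          rcases hv with hv | hv | hv | hv
          · exact Or.inl ⟨hv, hvA⟩
          · exact Or.inr (Or.inl hv)
          · refine Or.inr (Or.inr (Or.inl ?_))
            simp only [mem_iUnion] at hv ⊢
            obtain ⟨j, hj, hv⟩ := hv
            exact ⟨j, hj, hv, hvA⟩
          · exact Or.inr (Or.inr (Or.inr hv))
        refine (mk_le_mk_of_subset h2).trans ((mk_union_le _ _).trans ?_)
        refine add_le_of_le (hcω i) (hinv i).2.2.1 ((mk_union_le _ _).trans ?_)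
        refine add_le_of_le (hcω i) (hEcard i) ((mk_union_le _ _).trans ?_)
        refine add_le_of_le (hcω i) ?_ ?_
        · refine mk_biUnion_le' (hcω i) ((mk_set_le _).trans (hcI i)) _ ?_
          intro j hj
          exact (hinv j).2.2.1.trans (hcmono j i hj)
        · refine mk_biUnion_le' (hcω i) ((mk_set_le _).trans (hcI i)) _ ?_
          intro j _
          exact mk_biUnion_le' (hcω i) (hinv i).2.2.1 _ (fun v _ => hBk j v)
      obtain ⟨Y, h3, h4, h5, h6⟩ := exists_closed (hcω i)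
        (fun C h1 h2 h3 => hsmall C h1 h2 (lt_of_le_of_lt h3 (hsucc i))) T hTA hTB hTc
      refine ⟨Y, subset_union_left.trans h3, ?_, ?_, ?_, h4, h5, h6⟩
      · exact fun v hv => h3 (Or.inr (Or.inl hv))
      · intro j hj v hv
        refine h3 (Or.inr (Or.inr (Or.inl ?_)))
        simp only [mem_iUnion]
        exact ⟨j, hj, hv⟩
      · intro j _ v hv hvj hvA x hx
        refine h3 (Or.inr (Or.inr (Or.inr ?_)))
        simp only [mem_iUnion]
        refine ⟨j, mem_univ j, v, ⟨hv, hvA⟩, ?_⟩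
        simp only [Bk, if_pos (And.intro hvj hvA)]
        exact hx
    choose F' hF1 hF2 hF3 hF4 hF5 hF6 hF7 using h1
    have h2 : ∀ i, ∃ ρ', Wit H k A (F' i) ρ' ∧ (∀ v ∈ F i, ρ' v = ρ i v) ∧
        ∀ v ∈ F i, ∀ x, x ∉ F i → ρ' v < ρ' x := by
      intro i
      exact Wit.extend (hinv i).1 (hinv i).2.2.2.2
        ((hinv i).2.2.2.1 (F' i) (hF1 i) (hF5 i) (hF6 i))
    choose ρ' hρ1 hρ2 hρ3 using h2
    refine ⟨⟨⟨F', ρ'⟩, ?_⟩, ?_⟩
    · intro i
      exact ⟨(hinv i).1.trans (hF1 i), hF5 i, hF6 i, hF7 i, hρ1 i⟩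
    · intro i
      exact ⟨hF1 i, hρ2 i, hρ3 i, hF2 i, hF3 i, hF4 i⟩
  choose nx hnx using hstep
  have hinv0 : Inv (fun _ => A) (fun _ _ => 0) := by
    intro i
    refine ⟨Subset.rfl, hAB, ?_, ?_, ?_⟩
    · rw [sdiff_self]
      simp
    · intro C h1 h2 h3
      exact hsmall C h1 h2 (lt_of_le_of_lt h3 (hcμ i))
    · intro v hv hvA
      exact absurd hv hvA
  let S : ℕ → St := fun n => Nat.rec ⟨⟨fun _ => A, fun _ _ => 0⟩, hinv0⟩ (fun _ s => nx s) n
  have hS : ∀ n, S (n + 1) = nx (S n) := fun n => rfl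
  let F : ℕ → I → Set V := fun n => (S n).1.1
  let ρ : ℕ → I → V → Ordinal.{u} := fun n => (S n).1.2
  have hinv : ∀ n i, A ⊆ F n i ∧ F n i ⊆ B ∧ #(F n i \ A : Set V) ≤ c i ∧
    (∀ C, F n i ⊆ C → C ⊆ B → #(C \ A : Set V) ≤ c i → Fr H k (F n i) C) ∧
      Wit H k A (F n i) (ρ n i) := fun n i => (S n).2 i
  have hstep : ∀ n i, F n i ⊆ F (n + 1) i ∧ (∀ v ∈ F n i, ρ (n + 1) i v = ρ n i v) ∧
      (∀ v ∈ F n i, ∀ x, x ∉ F n i → ρ (n + 1) i v < ρ (n + 1) i x) ∧
      E i ⊆ F (n + 1) i ∧ (∀ j ≤ i, F n j ⊆ F (n + 1) i) ∧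
      (∀ j, i < j → ∀ v ∈ F n i, v ∈ F n j → v ∉ A →
        bk H A (F n j) (ρ n j) v ⊆ F (n + 1) i) := fun n i => hnx (S n) i
  have hFmono : ∀ i m n, m ≤ n → F m i ⊆ F n i := by
    intro i m n h
    induction h with
    | refl => exact Subset.rfl
    | step _ ih => exact ih.trans (hstep _ i).1
  have hρeq : ∀ i m n, m ≤ n → ∀ v ∈ F m i, ρ n i v = ρ m i v := by
    intro i m n h v hv
    induction h with
    | refl => rfl
    | step h' ih => rw [(hstep _ i).2.1 v (hFmono i m _ h' hv), ih]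
  have hr : ∀ (i : I) (v : V), ∃ o : Ordinal.{u}, ∀ n, v ∈ F n i → o = ρ n i v := by
    intro i v
    by_cases h : ∃ n, v ∈ F n i
    · obtain ⟨n, hn⟩ := h
      refine ⟨ρ n i v, ?_⟩
      intro m hm
      rcases le_total m n with h | h
      · exact hρeq i m n h v hm
      · exact (hρeq i n m h v hn).symm
    · exact ⟨0, fun n hn => absurd ⟨n, hn⟩ h⟩
  choose r hr using hr
  let G : I → Set V := fun i => ⋃ n, F n i
  have hAG : ∀ i, A ⊆ G i := fun i => (hinv 0 i).1.trans (subset_iUnion (fun n => F n i) 0)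
  have hbk : ∀ i n v, v ∈ F n i → bk H A (G i) (r i) v ⊆ bk H A (F n i) (ρ n i) v := by
    rintro i n v hv x ⟨hx, ha, hrx⟩
    by_cases hxn : x ∈ F n i
    · refine ⟨hxn, ha, ?_⟩
      rw [hr i x n hxn, hr i v n hv] at hrx
      exact hrx
    · exfalso
      have hxA : x ∉ A := fun h => hxn ((hinv n i).1 h)
      have hle := hrx.resolve_left hxA
      simp only [G, mem_iUnion] at hx
      have hm := Nat.find_spec hx
      have hmin := fun m => Nat.find_min hx (m := m)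
      obtain ⟨m, hm'⟩ : ∃ m, Nat.find hx = m := ⟨_, rfl⟩
      rw [hm'] at hm
      have hnm : n < m := by
        by_contra hcon
        rw [not_lt] at hcon
        exact hxn (hFmono i m n hcon hm)
      obtain ⟨m', rfl⟩ : ∃ m', m = m' + 1 := ⟨m - 1, by omega⟩
      have hxm' : x ∉ F m' i := hmin m' (by omega)
      have hvm' : v ∈ F m' i := hFmono i n m' (by omega) hv
      have h1 := (hstep m' i).2.2.1 v hvm' x hxm'
      rw [← hr i x (m' + 1) hm, ← hr i v (m' + 1) (hFmono i m' (m' + 1) (by omega) hvm')] at h1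
      exact absurd hle (not_le.mpr h1)
  have hwit : ∀ i, Wit H k A (G i) (r i) := by
    intro i v hv hvA
    simp only [G, mem_iUnion] at hv
    obtain ⟨n, hn⟩ := hv
    exact le_trans (encard_le_encard (hbk i n v hn)) ((hinv n i).2.2.2.2 v hn hvA)
  have hGmono : ∀ i j : I, i ≤ j → G i ⊆ G j := by
    intro i j hij
    refine iUnion_subset fun n => ?_
    exact ((hstep n j).2.2.2.2.1 i hij).trans (subset_iUnion (fun n => F n j) (n + 1))
  have hmain : Fr H k A (A ∪ ⋃ i, G i) := by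
    refine concat _ typein_mono (fun i => A ∪ ⋃ j ∈ Iio i, G j) G ?_ ?_ ?_ ?_ ?_
    · intro i
      exact subset_union_left
    · intro i
      refine union_subset (hAG i) (iUnion₂_subset fun j hj => hGmono j i (le_of_lt hj))
    · intro i j hij v hv
      refine Or.inr ?_
      simp only [mem_iUnion]
      exact ⟨i, hij, hv⟩
    · rintro i v (hv | hv)
      · exact Or.inl hv
      · simp only [mem_iUnion] at hv
        obtain ⟨j, hj, hv⟩ := hv
        exact Or.inr ⟨j, hj, hv⟩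
    · intro i
      refine ⟨r i, (hwit i).closed subset_union_left ?_⟩
      rintro v (hv | hv) hvA
      · exact absurd hv hvA
      · simp only [mem_iUnion] at hv
        obtain ⟨j, hj, hv⟩ := hv
        have hji : j < i := hj
        have hvi : v ∈ G i := hGmono j i hji.le hv
        simp only [G, mem_iUnion] at hv hvi
        obtain ⟨n, hn⟩ := hv
        obtain ⟨m, hm⟩ := hvi
        have hn' := hFmono j n (max n m) (le_max_left _ _) hn
        have hm' := hFmono i m (max n m) (le_max_right _ _) hm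
        have h1 := hbk i (max n m) v hm'
        have h2 := (hstep (max n m) j).2.2.2.2.2 i hji v hn' hm' hvA
        refine (h1.trans h2).trans ?_
        intro x hx
        refine Or.inr ?_
        simp only [mem_iUnion]
        exact ⟨j, hj, mem_iUnion.mpr ⟨max n m + 1, hx⟩⟩
  refine hmain.mono le_rfl le_rfl ?_
  intro v hv
  by_cases hvA : v ∈ A
  · exact Or.inl hvA
  · refine Or.inr ?_
    obtain ⟨i, hi, hti⟩ := hI (e.symm ⟨v, hv, hvA⟩)
    refine mem_iUnion.mpr ⟨⟨i, hi⟩, mem_iUnion.mpr ⟨1, ?_⟩⟩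
    refine (hstep 0 ⟨i, hi⟩).2.2.2.1 ⟨e.symm ⟨v, hv, hvA⟩, hti, ?_⟩
    simp

end Pool.Agent.Helper316_Col
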